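import Pool.Agent.H639R3.G.Union

/-!
The condensation of the series, and the convergence half.
-/

open MeasureTheory Set Metric

namespace Pool.Agent.H639R3.G

variable {d m : ℕ}

/-- dyadic blocks -/
theorem sum_blocks (f : ℕ → ℝ) (T : ℕ) :
    ∑ t ∈ Finset.range T, ∑ k ∈ Finset.Ico (2 ^ t) (2 ^ (t + 1)), f k
      = ∑ k ∈ Finset.Ico 1 (2 ^ T), f k := by
  induction T with
  | zero => simp
  | succ T ih =>
    rw [Finset.sum_range_succ, ih, Finset.sum_Ico_consecutive _ Nat.one_le_two_pow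
      (Nat.pow_le_pow_right (by norm_num) (Nat.le_succ T))]

theorem summable_condensed_iff' {n : ℕ} (hn : 2 ≤ n) {ψ : ℕ → ℝ} (hψ : Admissible ψ) :
    Summable (fun k : ℕ => (k : ℝ) ^ (n - 1) * ψ k)
      ↔ Summable (fun t : ℕ => (2 : ℝ) ^ (t * n) * ψ (2 ^ t)) := by
  obtain ⟨hpos, hmono⟩ := hψ
  set f : ℕ → ℝ := fun k => (k : ℝ) ^ (n - 1) * ψ k with hf
  have hf0 : f 0 = 0 := by
    simp only [hf]
    rw [Nat.cast_zero, zero_pow (by omega), zero_mul]
  have hfnn : ∀ k, 0 ≤ f k := by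
    intro k
    rcases Nat.eq_zero_or_pos k with rfl | hk
    · rw [hf0]
    · have := hpos k hk
      simp only [hf]; positivity
  have hcard : ∀ t : ℕ, (Finset.Ico (2 ^ t) (2 ^ (t + 1))).card = 2 ^ t := by
    intro t; rw [Nat.card_Ico, pow_succ]; omega
  have hup : ∀ t : ℕ, ∑ k ∈ Finset.Ico (2 ^ t) (2 ^ (t + 1)), f k
      ≤ 2 ^ (n - 1) * ((2 : ℝ) ^ (t * n) * ψ (2 ^ t)) := by
    intro t
    have h1 : ∀ k ∈ Finset.Ico (2 ^ t) (2 ^ (t + 1)), f k
        ≤ ((2 : ℝ) ^ (t + 1)) ^ (n - 1) * ψ (2 ^ t) := by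
      intro k hk
      have hk1 := Finset.mem_Ico.1 hk
      have hk2 : (k : ℝ) ≤ 2 ^ (t + 1) := by exact_mod_cast hk1.2.le
      have hk3 := hmono _ _ Nat.one_le_two_pow hk1.1
      have hk4 := hpos k (le_trans Nat.one_le_two_pow hk1.1)
      simp only [hf]
      gcongr
    refine (Finset.sum_le_sum h1).trans (le_of_eq ?_)
    rw [Finset.sum_const, hcard, nsmul_eq_mul]
    push_cast
    have : (2 : ℝ) ^ (t * n) = 2 ^ t * (2 ^ t) ^ (n - 1) := by
      rw [← pow_succ', ← pow_mul]; congr 2; omega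
    rw [this, pow_succ, mul_pow]
    ring
  have hlow : ∀ t : ℕ, (2 : ℝ) ^ ((t + 1) * n) * ψ (2 ^ (t + 1))
      ≤ 2 ^ n * ∑ k ∈ Finset.Ico (2 ^ t) (2 ^ (t + 1)), f k := by
    intro t
    have h1 : ∀ k ∈ Finset.Ico (2 ^ t) (2 ^ (t + 1)),
        ((2 : ℝ) ^ t) ^ (n - 1) * ψ (2 ^ (t + 1)) ≤ f k := by
      intro k hk
      have hk1 := Finset.mem_Ico.1 hk
      have hk2 : (2 : ℝ) ^ t ≤ k := by exact_mod_cast hk1.1
      have hk3 := hmono _ _ (le_trans Nat.one_le_two_pow hk1.1) hk1.2.le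
      have hk4 := hpos (2 ^ (t + 1)) Nat.one_le_two_pow
      simp only [hf]
      gcongr
    have h2 := Finset.sum_le_sum h1
    rw [Finset.sum_const, hcard, nsmul_eq_mul] at h2
    push_cast at h2
    have : (2 : ℝ) ^ ((t + 1) * n) = 2 ^ n * (2 ^ t * (2 ^ t) ^ (n - 1)) := by
      rw [← pow_succ', ← pow_mul, ← pow_add]; congr 1
      have : n - 1 + 1 = n := by omega
      rw [this]; ring
    rw [this]
    calc 2 ^ n * ((2 : ℝ) ^ t * (2 ^ t) ^ (n - 1)) * ψ (2 ^ (t + 1))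
        = 2 ^ n * (2 ^ t * ((2 ^ t) ^ (n - 1) * ψ (2 ^ (t + 1)))) := by ring
      _ ≤ _ := by gcongr
  constructor
  · intro hs
    rw [← summable_nat_add_iff 1]
    apply summable_of_sum_range_le (c := 2 ^ n * ∑' k, f k)
    · intro t
      have := hpos (2 ^ (t + 1)) Nat.one_le_two_pow
      positivity
    · intro T
      calc ∑ t ∈ Finset.range T, (2 : ℝ) ^ ((t + 1) * n) * ψ (2 ^ (t + 1))
          ≤ ∑ t ∈ Finset.range T, 2 ^ n * ∑ k ∈ Finset.Ico (2 ^ t) (2 ^ (t + 1)), f k :=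
            Finset.sum_le_sum fun t _ => hlow t
        _ = 2 ^ n * ∑ k ∈ Finset.Ico 1 (2 ^ T), f k := by rw [← Finset.mul_sum, sum_blocks]
        _ ≤ 2 ^ n * ∑' k, f k := by
            gcongr
            exact hs.sum_le_tsum _ fun k _ => hfnn k
  · intro hs
    apply summable_of_sum_range_le (c := 2 ^ (n - 1) * ∑' t : ℕ, (2 : ℝ) ^ (t * n) * ψ (2 ^ t))
      hfnn
    intro N
    have hN : N ≤ 2 ^ N := Nat.lt_two_pow_self.le
    calc ∑ k ∈ Finset.range N, f k ≤ ∑ k ∈ Finset.range (2 ^ N), f k := by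
          apply Finset.sum_le_sum_of_subset_of_nonneg
          · exact Finset.range_subset_range.2 hN
          · intro k _ _; exact hfnn k
      _ = ∑ k ∈ Finset.Ico 1 (2 ^ N), f k := by
          rw [Finset.range_eq_Ico, Finset.sum_eq_sum_Ico_succ_bot (by positivity), hf0, zero_add]
      _ = ∑ t ∈ Finset.range N, ∑ k ∈ Finset.Ico (2 ^ t) (2 ^ (t + 1)), f k :=
          (sum_blocks f N).symm
      _ ≤ ∑ t ∈ Finset.range N, 2 ^ (n - 1) * ((2 : ℝ) ^ (t * n) * ψ (2 ^ t)) :=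
          Finset.sum_le_sum fun t _ => hup t
      _ = 2 ^ (n - 1) * ∑ t ∈ Finset.range N, ((2 : ℝ) ^ (t * n) * ψ (2 ^ t)) := by
          rw [Finset.mul_sum]
      _ ≤ _ := by
          gcongr
          apply hs.sum_le_tsum _ fun t _ => ?_
          have := hpos (2 ^ t) Nat.one_le_two_pow
          positivity

theorem distInt_lt_iff {t δ : ℝ} : distInt t < δ ↔ ∃ p : ℤ, |p + t| < δ := by
  unfold distInt
  constructor
  · intro h
    refine ⟨-round t, ?_⟩
    push_cast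
    rwa [neg_add_eq_sub]
  · rintro ⟨p, hp⟩
    refine lt_of_le_of_lt (round_le t (-p)) ?_
    push_cast
    rwa [sub_neg_eq_add, add_comm]

/-- the value of an integral form at the point `(x, x̃ A)` -/
theorem sum_point (A : Matrix (Fin (d + 1)) (Fin m) ℝ) (x : Fin d → ℝ) (z : Fin (d + m) → ℤ) :
    ∑ i, (z i : ℝ) * point A x i = aff (acoef A fun j => z (Fin.natAdd d j))
      (bvec A (fun i => z (Fin.castAdd m i)) fun j => z (Fin.natAdd d j)) x := by
  rw [Fin.sum_univ_add]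
  have h1 : ∑ j : Fin m, (z (Fin.natAdd d j) : ℝ) * point A x (Fin.natAdd d j)
      = ∑ i : Fin (d + 1), (Fin.cons 1 x : Fin (d + 1) → ℝ) i
        * ev A (fun j => z (Fin.natAdd d j)) i := by
    have := Matrix.dotProduct_mulVec (Fin.cons 1 x : Fin (d + 1) → ℝ) A
      (fun j => (z (Fin.natAdd d j) : ℝ))
    simp only [dotProduct] at this
    unfold ev
    rw [this]
    apply Finset.sum_congr rfl
    intro j _
    rw [point, Fin.append_right, mul_comm]
  have h2 : ∑ i : Fin d, (z (Fin.castAdd m i) : ℝ) * point A x (Fin.castAdd m i)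
      = ∑ i : Fin d, (z (Fin.castAdd m i) : ℝ) * x i := by
    apply Finset.sum_congr rfl
    intro j _
    rw [point, Fin.append_left]
  rw [h1, h2, Fin.sum_univ_succ]
  simp only [Fin.cons_zero, Fin.cons_succ, aff, acoef, bvec, one_mul]
  rw [add_left_comm, ← Finset.sum_add_distrib]
  congr 1
  apply Finset.sum_congr rfl
  intro i _
  ring

/-- bound for the slopes -/
noncomputable def CA (A : Matrix (Fin (d + 1)) (Fin m) ℝ) : ℝ := 1 + ∑ i, ∑ j, |A i j|

theorem CA_pos (A : Matrix (Fin (d + 1)) (Fin m) ℝ) : 0 < CA A := by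
  unfold CA
  have : 0 ≤ ∑ i, ∑ j, |A i j| := Finset.sum_nonneg fun i _ => Finset.sum_nonneg fun j _ =>
    abs_nonneg _
  linarith

theorem norm_bvec_le (A : Matrix (Fin (d + 1)) (Fin m) ℝ) {q' : Fin d → ℤ} {q : Fin m → ℤ}
    {N : ℝ} (hN : 0 ≤ N) (h1 : ∀ i, |(q' i : ℝ)| ≤ N) (h2 : ∀ j, |(q j : ℝ)| ≤ N) :
    ‖bvec A q' q‖ ≤ CA A * N := by
  rw [pi_norm_le_iff_of_nonneg (mul_nonneg (CA_pos A).le hN)]
  intro i
  rw [Real.norm_eq_abs]
  unfold bvec CA
  have h3 : |ev A q i.succ| ≤ (∑ i, ∑ j, |A i j|) * N := by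
    unfold ev Matrix.mulVec dotProduct
    calc |∑ j, A i.succ j * (q j : ℝ)| ≤ ∑ j, |A i.succ j * (q j : ℝ)| :=
          Finset.abs_sum_le_sum_abs _ _
      _ ≤ ∑ j, |A i.succ j| * N := by
          apply Finset.sum_le_sum
          intro j _
          rw [abs_mul]
          exact mul_le_mul_of_nonneg_left (h2 j) (abs_nonneg _)
      _ = (∑ j, |A i.succ j|) * N := by rw [Finset.sum_mul]
      _ ≤ (∑ i, ∑ j, |A i j|) * N := by
          apply mul_le_mul_of_nonneg_right _ hN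
          exact Finset.single_le_sum (f := fun i => ∑ j, |A i j|)
            (fun i _ => Finset.sum_nonneg fun j _ => abs_nonneg _) (Finset.mem_univ i.succ)
  calc |(q' i : ℝ) + ev A q i.succ| ≤ |(q' i : ℝ)| + |ev A q i.succ| := abs_add_le _ _
    _ ≤ N + (∑ i, ∑ j, |A i j|) * N := add_le_add (h1 i) h3
    _ = _ := by ring

theorem groshevConvergence_of_hyp (hd : 0 < d) (hm : 0 < m) {A : Matrix (Fin (d + 1)) (Fin m) ℝ}
    {β c : ℝ} (h : Hyp A β c) : GroshevConvergence A := by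
  intro ψ hψ hsum
  have hcond := (summable_condensed_iff' (n := d + m) (by omega) hψ).1 hsum
  -- reduction to balls
  have hball : ∀ R : ℕ, volume {x : Fin d → ℝ | x ∈ closedBall (0 : Fin d → ℝ) ((R : ℝ) + 1) ∧
      point A x ∈ W ψ} = 0 := by
    intro R
    set ρ : ℝ := (R : ℝ) + 1 with hρ
    have hρ0 : 0 < ρ := by positivity
    obtain ⟨t0, ht0⟩ := volume_Bad_le hd h (0 : Fin d → ℝ) hρ0 (CA_pos A)
    have hlim := hcond.tendsto_atTop_zero
    have hev : ∀ᶠ t : ℕ in Filter.atTop, (2 : ℝ) ^ (t * (d + m)) * ψ (2 ^ t)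
        < 1 / 2 ^ (d + m) := hlim.eventually_lt_const (by positivity)
    obtain ⟨t1, ht1⟩ := Filter.eventually_atTop.1 hev
    set T := max t0 t1 with hT
    set E : ℕ → Set (Fin d → ℝ) := fun t => Bad A 0 ρ (t + T + 1) (CA A * 2 ^ (t + T + 1))
      (ψ (2 ^ (t + T))) with hE
    have hmeas : ∀ t, volume (E t) ≤ ENNReal.ofReal (C1 d m * CA A ^ d * (2 * ρ) ^ d *
        2 ^ (d + m) * (2 ^ ((t + T) * (d + m)) * ψ (2 ^ (t + T)))) := by
      intro t
      have hpos := hψ.1 (2 ^ (t + T)) Nat.one_le_two_pow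
      have h1 := ht1 (t + T) (by omega)
      have h2 := ht0 (t + T + 1) (by omega) (ψ (2 ^ (t + T))) hpos.le (by
        have e : (2 : ℝ) ^ ((t + T + 1) * (d + m)) = 2 ^ ((t + T) * (d + m)) * 2 ^ (d + m) := by
          rw [← pow_add]; congr 1; ring
        rw [e, le_div_iff₀ (by positivity)]
        rw [lt_div_iff₀ (by positivity)] at h1
        nlinarith)
      refine h2.trans (ENNReal.ofReal_le_ofReal (le_of_eq ?_))
      have e : (2 : ℝ) ^ ((t + T + 1) * (d + m)) = 2 ^ ((t + T) * (d + m)) * 2 ^ (d + m) := by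
        rw [← pow_add]; congr 1; ring
      rw [e]; ring
    have hfin : ∑' t, volume (E t) ≠ ⊤ := by
      have hs : Summable fun t : ℕ => C1 d m * CA A ^ d * (2 * ρ) ^ d *
        2 ^ (d + m) * (2 ^ ((t + T) * (d + m)) * ψ (2 ^ (t + T))) :=
        ((summable_nat_add_iff T).2 hcond).mul_left _
      have h1 := ENNReal.tsum_le_tsum hmeas
      refine ne_top_of_le_ne_top ?_ h1
      exact hs.tsum_ofReal_ne_top
    have hbc := measure_setOfPred_frequently_eq_zero hfin
    refine measure_mono_null ?_ hbc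
    rintro x ⟨hx, hW⟩
    rw [mem_ofPred_eq, Filter.frequently_atTop]
    intro N
    -- some z of large norm
    have hfinite : {z : Fin (d + m) → ℤ | supNorm z < 2 ^ (N + T)}.Finite := by
      apply (box (d + m) (2 ^ (N + T))).finite_toSet.subset
      intro z hz
      exact mem_box.2 (supNorm_le_iff.1 (le_of_lt hz))
    obtain ⟨z, hz, hzN⟩ : ∃ z, z ∈ {q : Fin (d + m) → ℤ | q ≠ 0 ∧
        distInt (∑ i, (q i : ℝ) * point A x i) < ψ (supNorm q)} ∧
        z ∉ {z : Fin (d + m) → ℤ | supNorm z < 2 ^ (N + T)} := by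
      have := Set.Infinite.sdiff hW hfinite
      obtain ⟨z, hz⟩ := this.nonempty
      exact ⟨z, hz.1, hz.2⟩
    obtain ⟨hz0, hzlt⟩ := hz
    have hzN' : 2 ^ (N + T) ≤ supNorm z := not_lt.1 hzN
    set s := Nat.log 2 (supNorm z) with hs
    have hsup0 : supNorm z ≠ 0 := (supNorm_pos hz0).ne'
    have hs1 : 2 ^ s ≤ supNorm z := Nat.pow_log_le_self 2 hsup0
    have hs2 : supNorm z < 2 ^ (s + 1) := Nat.lt_pow_succ_log_self (by norm_num) _
    have hsN : N + T ≤ s := by
      rw [hs]; exact Nat.le_log_of_pow_le (by norm_num) hzN'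
    refine ⟨s - T, by omega, ?_⟩
    have hsT : s - T + T = s := by omega
    show x ∈ E (s - T)
    simp only [hE, hsT]
    rw [distInt_lt_iff] at hzlt
    obtain ⟨p, hp⟩ := hzlt
    rw [sum_point] at hp
    have hzle : ∀ i, |z i| ≤ ((2 ^ (s + 1) : ℕ) : ℤ) := supNorm_le_iff.1 hs2.le
    refine ⟨hx, _, _, p, ?_, ?_, ?_, lt_of_lt_of_le hp (hψ.2 _ _ Nat.one_le_two_pow hs1)⟩
    · rintro ⟨e1, e2⟩
      apply hz0
      ext i
      refine Fin.addCases (fun i => ?_) (fun j => ?_) i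
      · exact congrFun e1 i
      · exact congrFun e2 j
    · intro j; simpa using hzle (Fin.natAdd d j)
    · apply norm_bvec_le A (by positivity)
      · intro i
        have := hzle (Fin.castAdd m i)
        rw [← Int.cast_abs]; exact_mod_cast this
      · intro j
        have := hzle (Fin.natAdd d j)
        rw [← Int.cast_abs]; exact_mod_cast this
  have hcov : {x : Fin d → ℝ | point A x ∈ W ψ} ⊆ ⋃ R : ℕ, {x : Fin d → ℝ |
      x ∈ closedBall (0 : Fin d → ℝ) ((R : ℝ) + 1) ∧ point A x ∈ W ψ} := by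
    intro x hx
    obtain ⟨R, hR⟩ := exists_nat_ge ‖x‖
    refine mem_iUnion.2 ⟨R, ?_, hx⟩
    rw [mem_closedBall, dist_zero_right]; linarith
  exact measure_mono_null hcov (measure_iUnion_null hball)

end Pool.Agent.H639R3.G
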