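import Mathlib

/-!
Definitions for the metric theory of linear forms on affine subspaces.
-/

open MeasureTheory

namespace Pool.Agent.H639R3.G

/-- the distance from a real number to the nearest integer -/
noncomputable def distInt (t : ℝ) : ℝ := |t - round t|

/-- for a real vector: the maximum over the coordinates of the distance to the nearest integer -/
noncomputable def distIntVec {k : ℕ} (v : Fin k → ℝ) : ℝ := ‖fun i => v i - (round (v i) : ℝ)‖

/-- the sup norm of an integer vector -/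
def supNorm {k : ℕ} (q : Fin k → ℤ) : ℕ := Finset.univ.sup fun i => (q i).natAbs

/-- `A qᵀ` for a real matrix `A` and an integer vector `q` -/
noncomputable def ev {k m : ℕ} (A : Matrix (Fin k) (Fin m) ℝ) (q : Fin m → ℤ) : Fin k → ℝ :=
  A.mulVec fun j => (q j : ℝ)

/-- the Diophantine exponent `ω(A)`: the supremum of the real `ω` such that
`‖A qᵀ‖ < |q| ^ (-ω)` for infinitely many integer vectors `q` -/
noncomputable def exponent {k m : ℕ} (A : Matrix (Fin k) (Fin m) ℝ) : EReal :=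
  sSup ((fun ω : ℝ => (ω : EReal)) ''
    {ω : ℝ | {q : Fin m → ℤ | distIntVec (ev A q) < (supNorm q : ℝ) ^ (-ω)}.Infinite})

/-- the point `(x, x̃ A)` of the affine subspace `L_A`, where `x̃ = (1, x)` -/
noncomputable def point {d m : ℕ} (A : Matrix (Fin (d + 1)) (Fin m) ℝ) (x : Fin d → ℝ) :
    Fin (d + m) → ℝ :=
  Fin.append x (Matrix.vecMul (Fin.cons 1 x : Fin (d + 1) → ℝ) A)

/-- the set `W_n(ψ)` of the `y` such that `‖q · y‖ < ψ(|q|)` for infinitely many nonzero `q` -/
def W {n : ℕ} (ψ : ℕ → ℝ) : Set (Fin n → ℝ) :=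
  {y | {q : Fin n → ℤ | q ≠ 0 ∧ distInt (∑ i, (q i : ℝ) * y i) < ψ (supNorm q)}.Infinite}

/-- positive and non-increasing on the positive integers -/
def Admissible (ψ : ℕ → ℝ) : Prop :=
  (∀ k, 1 ≤ k → 0 < ψ k) ∧ ∀ j k, 1 ≤ j → j ≤ k → ψ k ≤ ψ j

/-- the affine subspace `L_A` is of Groshev type for convergence -/
def GroshevConvergence {d m : ℕ} (A : Matrix (Fin (d + 1)) (Fin m) ℝ) : Prop :=
  ∀ ψ : ℕ → ℝ, Admissible ψ → Summable (fun k : ℕ => (k : ℝ) ^ (d + m - 1) * ψ k) →
    volume {x : Fin d → ℝ | point A x ∈ W ψ} = 0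

/-- the affine subspace `L_A` is of Groshev type for divergence -/
def GroshevDivergence {d m : ℕ} (A : Matrix (Fin (d + 1)) (Fin m) ℝ) : Prop :=
  ∀ ψ : ℕ → ℝ, Admissible ψ → ¬ Summable (fun k : ℕ => (k : ℝ) ^ (d + m - 1) * ψ k) →
    volume {x : Fin d → ℝ | point A x ∉ W ψ} = 0

end Pool.Agent.H639R3.G
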