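import Pool.Agent.H639R3.G.Vol
import Pool.Agent.H639R3.G.Defs

/-!
The quantitative Diophantine input: if the exponent of `A` is less than `d + m` then the sum of
`1 / ‖A qᵀ‖` over `0 < |q| ≤ 2 ^ t` is at most `K * β ^ t` with `β < 2 ^ (d + m)`.
-/

open MeasureTheory Set Metric

namespace Pool.Agent.H639R3.G

variable {d m : ℕ}

theorem distIntVec_nonneg {k : ℕ} (v : Fin k → ℝ) : 0 ≤ distIntVec v := norm_nonneg _

theorem distIntVec_le {k : ℕ} {v : Fin k → ℝ} (z : Fin k → ℤ) {r : ℝ} (hr : 0 ≤ r)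
    (h : ∀ i, |v i - z i| ≤ r) : distIntVec v ≤ r := by
  unfold distIntVec
  rw [pi_norm_le_iff_of_nonneg hr]
  intro i
  rw [Real.norm_eq_abs]
  exact (round_le (v i) (z i)).trans (h i)

theorem le_distIntVec {k : ℕ} (v : Fin k → ℝ) (i : Fin k) :
    |v i - round (v i)| ≤ distIntVec v :=
  norm_le_pi_norm (fun i => v i - (round (v i) : ℝ)) i

theorem distIntVec_sub_le {k : ℕ} (v w : Fin k → ℝ) :
    distIntVec (v - w) ≤ distIntVec v + distIntVec w := by
  apply distIntVec_le (fun i => round (v i) - round (w i))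
    (add_nonneg (distIntVec_nonneg _) (distIntVec_nonneg _))
  intro i
  have h1 := le_distIntVec v i
  have h2 := le_distIntVec w i
  push_cast
  calc |(v - w) i - ((round (v i) : ℝ) - round (w i))|
      = |(v i - round (v i)) - (w i - round (w i))| := by
        congr 1; simp only [Pi.sub_apply]; ring
    _ ≤ |v i - round (v i)| + |w i - round (w i)| := abs_sub _ _
    _ ≤ _ := by linarith

theorem ev_sub {k : ℕ} (A : Matrix (Fin k) (Fin m) ℝ) (q q' : Fin m → ℤ) :
    ev A (q - q') = ev A q - ev A q' := by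
  unfold ev
  rw [← Matrix.mulVec_sub]
  congr 1
  ext j; simp

theorem ev_zero {k : ℕ} (A : Matrix (Fin k) (Fin m) ℝ) : ev A 0 = 0 := by
  unfold ev
  have : (fun j : Fin m => (((0 : Fin m → ℤ) j : ℤ) : ℝ)) = 0 := by ext j; simp
  rw [this, Matrix.mulVec_zero]

theorem ev_smul {k : ℕ} (A : Matrix (Fin k) (Fin m) ℝ) (a : ℤ) (q : Fin m → ℤ) :
    ev A (a • q) = (a : ℝ) • ev A q := by
  unfold ev
  rw [← Matrix.mulVec_smul]
  congr 1
  ext j; simp

theorem supNorm_pos {k : ℕ} {q : Fin k → ℤ} (hq : q ≠ 0) : 0 < supNorm q := by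
  obtain ⟨i, hi⟩ := Function.ne_iff.1 hq
  have h1 : (q i).natAbs ≤ supNorm q := by
    unfold supNorm
    exact Finset.le_sup (f := fun i => (q i).natAbs) (Finset.mem_univ i)
  have h2 : 0 < (q i).natAbs := Int.natAbs_pos.2 hi
  omega

theorem supNorm_le_iff {k : ℕ} {q : Fin k → ℤ} {N : ℕ} :
    supNorm q ≤ N ↔ ∀ i, |q i| ≤ (N : ℤ) := by
  unfold supNorm
  rw [Finset.sup_le_iff]
  constructor
  · intro h i
    have := h i (Finset.mem_univ i)
    rw [Int.abs_eq_natAbs]; exact_mod_cast this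
  · intro h i _
    have := h i
    rw [Int.abs_eq_natAbs] at this; exact_mod_cast this

/-- quantitative form of the hypothesis on the exponent -/
structure Hyp (A : Matrix (Fin (d + 1)) (Fin m) ℝ) (β c : ℝ) : Prop where
  lo : 2 ^ m < β
  hi : β < 2 ^ (d + m)
  cpos : 0 < c
  cle : c ≤ 1
  bd : ∀ (j : ℕ) (q : Fin m → ℤ), q ≠ 0 → (∀ i, |q i| ≤ 2 ^ j) →
    c / β ^ j ≤ distIntVec (ev A q)

theorem exists_pos_le_finite {ι : Type*} {s : Set ι} (hs : s.Finite) (f : ι → ℝ)
    (hf : ∀ i ∈ s, 0 < f i) : ∃ c : ℝ, 0 < c ∧ c ≤ 1 ∧ ∀ i ∈ s, c ≤ f i := by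
  induction s, hs using Set.Finite.induction_on with
  | empty => exact ⟨1, one_pos, le_rfl, by simp⟩
  | @insert a s _ _ ih =>
    obtain ⟨c, h1, h2, h3⟩ := ih fun i hi => hf i (mem_insert_of_mem a hi)
    refine ⟨min c (f a), lt_min h1 (hf a (mem_insert a s)), (min_le_left _ _).trans h2, ?_⟩
    intro i hi
    rcases mem_insert_iff.1 hi with rfl | hi
    · exact min_le_right _ _
    · exact (min_le_left _ _).trans (h3 i hi)

theorem exists_hyp (hd : 0 < d) (A : Matrix (Fin (d + 1)) (Fin m) ℝ)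
    (hA : exponent A < ((d + m : ℕ) : EReal)) : ∃ β c, Hyp A β c := by
  have hmax : max (exponent A) ((m : ℝ) : EReal) < ((d + m : ℕ) : EReal) := by
    apply max_lt hA
    have : (m : ℝ) < ((d + m : ℕ) : ℝ) := by
      push_cast
      have : (0 : ℝ) < d := by exact_mod_cast hd
      linarith
    exact_mod_cast this
  obtain ⟨r, hr1, hr2⟩ := EReal.lt_iff_exists_real_btwn.1 hmax
  have hrA : exponent A < (r : EReal) := (le_max_left _ _).trans_lt hr1
  have hrm : (m : ℝ) < r := by
    have := (le_max_right _ _).trans_lt hr1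
    exact_mod_cast this
  have hrn : r < ((d + m : ℕ) : ℝ) := by exact_mod_cast hr2
  have hr0 : 0 < r := lt_of_le_of_lt (Nat.cast_nonneg m) hrm
  have hfin : {q : Fin m → ℤ | distIntVec (ev A q) < (supNorm q : ℝ) ^ (-r)}.Finite := by
    by_contra hcon
    have : (r : EReal) ≤ exponent A := by
      apply le_sSup
      exact ⟨r, hcon, rfl⟩
    exact absurd hrA (not_lt.2 this)
  have hpos : ∀ q : Fin m → ℤ, q ≠ 0 → 0 < distIntVec (ev A q) := by
    intro q hq
    by_contra hcon
    have h0 : distIntVec (ev A q) = 0 := le_antisymm (not_lt.1 hcon) (distIntVec_nonneg _)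
    have hint : ∀ i, ev A q i = round (ev A q i) := by
      intro i
      have := le_distIntVec (ev A q) i
      rw [h0] at this
      have := abs_nonpos_iff.1 this
      linarith
    apply hfin.not_infinite
    apply Set.infinite_of_injective_forall_mem (f := fun k : ℕ => ((k : ℤ) + 1) • q)
    · intro k l hkl
      obtain ⟨i, hi⟩ := Function.ne_iff.1 hq
      have := congrFun hkl i
      simp only [Pi.smul_apply, smul_eq_mul] at this
      have := mul_right_cancel₀ hi this
      omega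
    · intro k
      have hne : ((k : ℤ) + 1) • q ≠ 0 := smul_ne_zero (by omega) hq
      have h1 : distIntVec (ev A (((k : ℤ) + 1) • q)) ≤ 0 := by
        apply distIntVec_le (fun i => ((k : ℤ) + 1) * round (ev A q i)) le_rfl
        intro i
        rw [ev_smul]
        simp only [Pi.smul_apply, smul_eq_mul]
        push_cast
        rw [← hint i]
        simp
      have h2 : (0 : ℝ) < (supNorm (((k : ℤ) + 1) • q) : ℝ) ^ (-r) := by
        apply Real.rpow_pos_of_pos
        exact_mod_cast supNorm_pos hne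
      exact lt_of_le_of_lt h1 h2
  obtain ⟨c, hc0, hc1, hc⟩ := exists_pos_le_finite (hfin.subset (sep_subset _ (fun q => q ≠ 0)))
    (fun q => distIntVec (ev A q)) (fun q hq => hpos q hq.2)
  refine ⟨2 ^ r, c, ?_, ?_, hc0, hc1, ?_⟩
  · rw [← Real.rpow_natCast]
    exact Real.rpow_lt_rpow_of_exponent_lt one_lt_two hrm
  · rw [← Real.rpow_natCast]
    exact Real.rpow_lt_rpow_of_exponent_lt one_lt_two hrn
  · intro j q hq hqj
    have hβ : (1 : ℝ) ≤ (2 ^ r) ^ j := one_le_pow₀ (Real.one_le_rpow one_le_two hr0.le)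
    by_cases hmem : distIntVec (ev A q) < (supNorm q : ℝ) ^ (-r)
    · have := hc q ⟨hmem, hq⟩
      refine le_trans ?_ this
      exact div_le_self hc0.le hβ
    · push Not at hmem
      refine le_trans ?_ hmem
      have h1 : (0 : ℝ) < supNorm q := by exact_mod_cast supNorm_pos hq
      have h2 : (supNorm q : ℝ) ≤ 2 ^ j := by
        have : supNorm q ≤ 2 ^ j := supNorm_le_iff.2 (by simpa using hqj)
        exact_mod_cast this
      have h3 : ((2 : ℝ) ^ j) ^ (-r) ≤ (supNorm q : ℝ) ^ (-r) :=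
        Real.rpow_le_rpow_of_nonpos h1 h2 (by linarith)
      have h4 : ((2 : ℝ) ^ j) ^ (-r) = 1 / (2 ^ r) ^ j := by
        rw [Real.rpow_neg (by positivity), one_div]
        congr 1
        rw [← Real.rpow_natCast, ← Real.rpow_natCast, ← Real.rpow_mul (by norm_num),
          ← Real.rpow_mul (by norm_num), mul_comm]
      rw [h4] at h3
      refine le_trans ?_ h3
      gcongr

/-- integer vectors in a box -/
noncomputable def box (m N : ℕ) : Finset (Fin m → ℤ) := Fintype.piFinset fun _ => Finset.Icc (-(N : ℤ)) N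

theorem mem_box {N : ℕ} {q : Fin m → ℤ} : q ∈ box m N ↔ ∀ i, |q i| ≤ (N : ℤ) := by
  simp only [box, Fintype.mem_piFinset, Finset.mem_Icc, abs_le]

theorem card_box (N : ℕ) : (box m N).card = (2 * N + 1) ^ m := by
  simp only [box, Fintype.card_piFinset, Int.card_Icc, Finset.prod_const, Finset.card_univ,
    Fintype.card_fin]
  congr 1
  omega

theorem card_box_le {N : ℕ} (hN : 1 ≤ N) : (box m N).card ≤ (3 * N) ^ m := by
  rw [card_box]
  exact Nat.pow_le_pow_left (by omega) m

/-- the number of `q` with small `‖A qᵀ‖` -/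
theorem card_small {A : Matrix (Fin (d + 1)) (Fin m) ℝ} {β c : ℝ} (h : Hyp A β c) {j t : ℕ}
    (hjt : j ≤ t) :
    ((box m (2 ^ t)).filter (fun q => distIntVec (ev A q) ≤ c / 4 / β ^ j)).card
      ≤ (3 * 2 ^ (t - j)) ^ m := by
  have hβ : 0 < β := lt_trans (by positivity) h.lo
  refine le_trans ?_ (card_box_le (m := m) (N := 2 ^ (t - j)) Nat.one_le_two_pow)
  apply Finset.card_le_card_of_injOn (fun q i => q i / 2 ^ j)
  · intro q hq
    have hq1 := mem_box.1 (Finset.mem_filter.1 hq).1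
    show (fun i => q i / 2 ^ j) ∈ (box m (2 ^ (t - j)) : Finset (Fin m → ℤ))
    rw [mem_box]
    intro i
    have h1 := abs_le.1 (hq1 i)
    have h2 : ((2 ^ t : ℕ) : ℤ) = 2 ^ (t - j) * 2 ^ j := by
      rw [← pow_add, Nat.sub_add_cancel hjt]; push_cast; rfl
    rw [h2] at h1
    rw [abs_le]
    constructor
    · rw [Int.le_ediv_iff_mul_le (by positivity)]
      push_cast
      linarith [h1.1]
    · apply Int.ediv_le_of_le_mul (by positivity)
      push_cast
      exact h1.2
  · intro q hq q' hq' hqq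
    have hq2 := (Finset.mem_filter.1 hq).2
    have hq2' := (Finset.mem_filter.1 hq').2
    by_contra hne
    have hsub : q - q' ≠ 0 := sub_ne_zero.2 hne
    have hb : ∀ i, |(q - q') i| ≤ 2 ^ j := by
      intro i
      have e := congrFun hqq i
      simp only at e
      have e1 := Int.emod_add_mul_ediv (q i) (2 ^ j)
      have e2 := Int.emod_add_mul_ediv (q' i) (2 ^ j)
      have e3 := Int.emod_nonneg (q i) (b := 2 ^ j) (by positivity)
      have e4 := Int.emod_nonneg (q' i) (b := 2 ^ j) (by positivity)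
      have e5 := Int.emod_lt_of_pos (q i) (b := 2 ^ j) (by positivity)
      have e6 := Int.emod_lt_of_pos (q' i) (b := 2 ^ j) (by positivity)
      rw [e] at e1
      simp only [Pi.sub_apply]
      rw [abs_le]
      constructor <;> linarith
    have h1 := h.bd j _ hsub hb
    rw [ev_sub] at h1
    have h2 := distIntVec_sub_le (ev A q) (ev A q')
    have h3 : 0 < c / β ^ j := by have := h.cpos; positivity
    have h4 : c / 4 / β ^ j = c / β ^ j / 4 := by ring
    rw [h4] at hq2 hq2'
    linarith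

theorem inv_le_sum {ρ : ℕ → ℝ} (hρ : ∀ j, 0 < ρ j) {N : ℝ} (t : ℕ) (h : ρ t < N) :
    1 / N ≤ 1 / ρ 0 + ∑ j ∈ Finset.range t, if N ≤ ρ j then 1 / ρ (j + 1) else 0 := by
  induction t with
  | zero =>
    simp only [Finset.range_zero, Finset.sum_empty, add_zero]
    exact one_div_le_one_div_of_le (hρ 0) h.le
  | succ t ih =>
    rw [Finset.sum_range_succ]
    by_cases hN : N ≤ ρ t
    · rw [if_pos hN]
      have h1 : 1 / N ≤ 1 / ρ (t + 1) := one_div_le_one_div_of_le (hρ _) h.le
      have h2 : 0 ≤ ∑ j ∈ Finset.range t, if N ≤ ρ j then 1 / ρ (j + 1) else 0 := by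
        apply Finset.sum_nonneg
        intro j _
        split_ifs
        · exact (one_div_pos.2 (hρ _)).le
        · exact le_rfl
      have h3 := one_div_pos.2 (hρ 0)
      linarith
    · rw [if_neg hN]
      have := ih (not_le.1 hN)
      linarith

theorem sum_inv_le {A : Matrix (Fin (d + 1)) (Fin m) ℝ} {β c : ℝ} (h : Hyp A β c) :
    ∃ K : ℝ, 0 < K ∧ ∀ t : ℕ,
      ∑ q ∈ (box m (2 ^ t)).filter (fun q => q ≠ 0), 1 / distIntVec (ev A q) ≤ K * β ^ t := by
  classical
  have hβ : 0 < β := lt_trans (by positivity) h.lo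
  have hc := h.cpos
  set ρ : ℕ → ℝ := fun j => c / 4 / β ^ j with hρdef
  have hρ : ∀ j, 0 < ρ j := fun j => by simp only [hρdef]; positivity
  set x := β / 2 ^ m with hx
  have hx1 : 1 < x := by rw [hx, lt_div_iff₀ (by positivity)]; simpa using h.lo
  refine ⟨4 / c * 3 ^ m * (1 + β / (x - 1)), ?_, ?_⟩
  · have : 0 < x - 1 := by linarith
    positivity
  intro t
  have h1 : ∀ q ∈ (box m (2 ^ t)).filter (fun q => q ≠ 0), 1 / distIntVec (ev A q)
      ≤ 1 / ρ 0 + ∑ j ∈ Finset.range t,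
        if distIntVec (ev A q) ≤ ρ j then 1 / ρ (j + 1) else 0 := by
    intro q hq
    apply inv_le_sum hρ
    have hq1 := Finset.mem_filter.1 hq
    have := h.bd t q hq1.2 (by simpa using mem_box.1 hq1.1)
    refine lt_of_lt_of_le ?_ this
    simp only [hρdef]
    gcongr
    linarith
  refine (Finset.sum_le_sum h1).trans ?_
  have h2 : ∑ q ∈ (box m (2 ^ t)).filter (fun q => q ≠ 0), (1 / ρ 0 + ∑ j ∈ Finset.range t,
        if distIntVec (ev A q) ≤ ρ j then 1 / ρ (j + 1) else 0)
      ≤ ∑ q ∈ box m (2 ^ t), (1 / ρ 0 + ∑ j ∈ Finset.range t,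
        if distIntVec (ev A q) ≤ ρ j then 1 / ρ (j + 1) else 0) := by
    apply Finset.sum_le_sum_of_subset_of_nonneg (Finset.filter_subset _ _)
    intro q _ _
    apply add_nonneg (one_div_pos.2 (hρ 0)).le
    apply Finset.sum_nonneg
    intro j _
    split_ifs
    · exact (one_div_pos.2 (hρ _)).le
    · exact le_rfl
  refine h2.trans ?_
  rw [Finset.sum_add_distrib, Finset.sum_comm]
  have h3 : ∑ _q ∈ box m (2 ^ t), 1 / ρ 0 ≤ 4 / c * 3 ^ m * (2 ^ m) ^ t := by
    rw [Finset.sum_const, nsmul_eq_mul]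
    have hc1 : ((box m (2 ^ t)).card : ℝ) ≤ (3 * 2 ^ t) ^ m := by
      exact_mod_cast card_box_le (m := m) (N := 2 ^ t) Nat.one_le_two_pow
    calc ((box m (2 ^ t)).card : ℝ) * (1 / ρ 0) ≤ (3 * 2 ^ t) ^ m * (1 / ρ 0) := by
          have := hρ 0
          gcongr
      _ = 4 / c * 3 ^ m * (2 ^ m) ^ t := by
          simp only [hρdef, pow_zero, div_one]
          rw [mul_pow, ← pow_mul, ← pow_mul, mul_comm t m]
          field_simp
  have h4 : ∑ j ∈ Finset.range t, ∑ q ∈ box m (2 ^ t),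
      (if distIntVec (ev A q) ≤ ρ j then 1 / ρ (j + 1) else 0)
      ≤ 4 / c * 3 ^ m * (β / (x - 1)) * β ^ t := by
    have h5 : ∀ j ∈ Finset.range t, ∑ q ∈ box m (2 ^ t),
        (if distIntVec (ev A q) ≤ ρ j then 1 / ρ (j + 1) else 0)
        ≤ 4 / c * 3 ^ m * β * (2 ^ m) ^ t * x ^ j := by
      intro j hj
      have hjt : j ≤ t := (Finset.mem_range.1 hj).le
      rw [← Finset.sum_filter, Finset.sum_const, nsmul_eq_mul]
      have hc1 : (((box m (2 ^ t)).filter (fun q => distIntVec (ev A q) ≤ ρ j)).card : ℝ)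
          ≤ (3 * 2 ^ (t - j)) ^ m := by
        exact_mod_cast card_small h hjt
      have h2t : (2 : ℝ) ^ t = 2 ^ (t - j) * 2 ^ j := by
        rw [← pow_add, Nat.sub_add_cancel hjt]
      calc (((box m (2 ^ t)).filter (fun q => distIntVec (ev A q) ≤ ρ j)).card : ℝ)
            * (1 / ρ (j + 1)) ≤ (3 * 2 ^ (t - j)) ^ m * (1 / ρ (j + 1)) := by
            have := hρ (j + 1)
            gcongr
        _ = 4 / c * 3 ^ m * β * (2 ^ m) ^ t * x ^ j := by
            simp only [hρdef, hx]
            rw [← pow_mul, mul_comm m t, pow_mul, h2t, div_pow, ← pow_mul, mul_comm m j, pow_mul,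
              mul_pow, mul_pow]
            field_simp
            ring
    refine (Finset.sum_le_sum h5).trans ?_
    rw [← Finset.mul_sum, geom_sum_eq hx1.ne']
    have hxpos : 0 < x - 1 := by linarith
    have h6 : (x ^ t - 1) / (x - 1) ≤ x ^ t / (x - 1) := by gcongr; linarith
    calc 4 / c * 3 ^ m * β * (2 ^ m) ^ t * ((x ^ t - 1) / (x - 1))
        ≤ 4 / c * 3 ^ m * β * (2 ^ m) ^ t * (x ^ t / (x - 1)) := by gcongr
      _ = 4 / c * 3 ^ m * (β / (x - 1)) * β ^ t := by
          have : β ^ t = (2 ^ m) ^ t * x ^ t := by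
            rw [← mul_pow, hx]; congr 1; field_simp
          rw [this]; field_simp
  have h7 : ((2 : ℝ) ^ m) ^ t ≤ β ^ t := by
    have := h.lo
    gcongr
  calc _ ≤ 4 / c * 3 ^ m * (2 ^ m) ^ t + 4 / c * 3 ^ m * (β / (x - 1)) * β ^ t := add_le_add h3 h4
    _ ≤ 4 / c * 3 ^ m * β ^ t + 4 / c * 3 ^ m * (β / (x - 1)) * β ^ t := by gcongr
    _ = _ := by ring

end Pool.Agent.H639R3.G
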