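import Pool.Agent.H639R3.G.Level

/-!
The divergence half.
-/

open MeasureTheory Set Metric

namespace Pool.Agent.H639R3.G

variable {d m : ℕ}

section level

variable {A : Matrix (Fin (d + 1)) (Fin m) ℝ} {x0 : Fin d → ℝ} {ρ κ C3 : ℝ} {t : ℕ}

/-- the slab piece attached to a point -/
noncomputable def Level.piece (L : Level A x0 ρ κ C3 t) (φ : ℝ) (x : Fin d → ℝ) :
    Set (Fin d → ℝ) := slabBox (L.a x) (L.b x) (L.idx x) x (sc d m t) φ

/-- the union of the slab pieces -/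
noncomputable def Level.E (L : Level A x0 ρ κ C3 t) (φ : ℝ) : Set (Fin d → ℝ) :=
  ⋃ x ∈ L.u, L.piece φ x

theorem Level.norm_b_pos (L : Level A x0 ρ κ C3 t) (hκ : 0 < κ) {x : Fin d → ℝ} (hx : x ∈ L.u) :
    0 < ‖L.b x‖ := lt_trans (by positivity) (L.hblo x hx)

theorem Level.piece_subset (hd : 0 < d) (L : Level A x0 ρ κ C3 t) (hκ : 0 < κ)
    (hC3 : C3 = d + 2 / κ) {φ : ℝ} (hφ0 : 0 ≤ φ) (hφ : φ ≤ 1 / 2 ^ (t * (d + m)))
    {x : Fin d → ℝ} (hx : x ∈ L.u) : L.piece φ x ⊆ closedBall x (C3 * sc d m t) := by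
  have hb := L.norm_b_pos hκ hx
  refine (slabBox_subset_closedBall hd (L.hidx x hx) hb (sc_pos d m t).le hφ0
    (L.hval x hx)).trans ?_
  apply closedBall_subset_closedBall
  have h1 : (φ + 1 / 2 ^ (t * (d + m))) / ‖L.b x‖ ≤ 2 / κ * sc d m t := by
    have h2 := (L.hblo x hx).le
    calc (φ + 1 / 2 ^ (t * (d + m))) / ‖L.b x‖
        ≤ (1 / 2 ^ (t * (d + m)) + 1 / 2 ^ (t * (d + m))) / (κ * 2 ^ t) := by
          gcongr
      _ = 2 / κ * sc d m t := by
          unfold sc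
          have : (2 : ℝ) ^ (t * (d + m + 1)) = 2 ^ (t * (d + m)) * 2 ^ t := by
            rw [← pow_add]; congr 1
          rw [this]; field_simp; ring
  have e : C3 * sc d m t = d * sc d m t + 2 / κ * sc d m t := by rw [hC3]; ring
  linarith

theorem Level.measurableSet_piece (L : Level A x0 ρ κ C3 t) (φ : ℝ) (x : Fin d → ℝ) :
    MeasurableSet (L.piece φ x) := measurableSet_slabBox _ _ _ _ _ _

theorem Level.measurableSet_E (L : Level A x0 ρ κ C3 t) (φ : ℝ) : MeasurableSet (L.E φ) :=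
  Finset.measurableSet_biUnion _ fun x _ => L.measurableSet_piece φ x

theorem real_slabBox {a : ℝ} {b : Fin d → ℝ} {i : Fin d} {c : Fin d → ℝ} {r δ : ℝ}
    (hbi : |b i| = ‖b‖) (hb : 0 < ‖b‖) (hr : 0 ≤ r) (hδ : 0 ≤ δ) :
    volume.real (slabBox a b i c r δ) = (2 * r) ^ (d - 1) * (2 * δ) / ‖b‖ := by
  have hne : b i ≠ 0 := by
    intro h; rw [h, abs_zero] at hbi; linarith
  rw [Measure.real, volume_slabBox hne hr, hbi, ENNReal.toReal_ofReal (by positivity)]

theorem volume_slabBox_ne_top {a : ℝ} {b : Fin d → ℝ} {i : Fin d} {c : Fin d → ℝ} {r δ : ℝ}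
    (hbi : |b i| = ‖b‖) (hb : 0 < ‖b‖) (hr : 0 ≤ r) :
    volume (slabBox a b i c r δ) ≠ ⊤ := by
  have hne : b i ≠ 0 := by
    intro h; rw [h, abs_zero] at hbi; linarith
  rw [volume_slabBox hne hr]; exact ENNReal.ofReal_ne_top

/-- normalisation -/
theorem sc_identity (hd : 0 < d) (m t : ℕ) (φ : ℝ) :
    (2 * sc d m t) ^ (d - 1) * (2 * φ) / 2 ^ t
      = (2 * sc d m t) ^ d * (2 ^ (t * (d + m)) * φ) := by
  have h1 : (2 * sc d m t) ^ d = (2 * sc d m t) ^ (d - 1) * (2 * sc d m t) := by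
    rw [← pow_succ]; congr 1; omega
  have h2 : 1 / (2 : ℝ) ^ t = sc d m t * 2 ^ (t * (d + m)) := by
    unfold sc
    have : (2 : ℝ) ^ (t * (d + m + 1)) = 2 ^ (t * (d + m)) * 2 ^ t := by
      rw [← pow_add]; congr 1
    rw [this]; field_simp
  rw [h1, div_eq_mul_one_div, h2]
  ring

theorem Level.piece_ge (hd : 0 < d) (L : Level A x0 ρ κ C3 t) (hκ : 0 < κ)
    {φ : ℝ} (hφ0 : 0 ≤ φ) {x : Fin d → ℝ} (hx : x ∈ L.u) :
    (2 * sc d m t) ^ d * (2 ^ (t * (d + m)) * φ) / CA A ≤ volume.real (L.piece φ x) := by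
  have hb := L.norm_b_pos hκ hx
  have hs := sc_pos d m t
  have hCA := CA_pos A
  rw [Level.piece, real_slabBox (L.hidx x hx) hb (sc_pos d m t).le hφ0, ← sc_identity hd,
    div_div]
  have := L.hbhi x hx
  rw [mul_comm (CA A)] at this
  gcongr

theorem Level.piece_le (hd : 0 < d) (L : Level A x0 ρ κ C3 t) (hκ : 0 < κ)
    {φ : ℝ} (hφ0 : 0 ≤ φ) {x : Fin d → ℝ} (hx : x ∈ L.u) :
    volume.real (L.piece φ x) ≤ (2 * sc d m t) ^ d * (2 ^ (t * (d + m)) * φ) / κ := by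
  have hb := L.norm_b_pos hκ hx
  have hs := sc_pos d m t
  rw [Level.piece, real_slabBox (L.hidx x hx) hb (sc_pos d m t).le hφ0, ← sc_identity hd,
    div_div]
  have := (L.hblo x hx).le
  rw [mul_comm κ] at this
  gcongr

theorem Level.piece_ne_top (L : Level A x0 ρ κ C3 t) (hκ : 0 < κ)
    {φ : ℝ} {x : Fin d → ℝ} (hx : x ∈ L.u) : volume (L.piece φ x) ≠ ⊤ :=
  volume_slabBox_ne_top (L.hidx x hx) (L.norm_b_pos hκ hx) (sc_pos d m t).le

theorem Level.E_subset (hd : 0 < d) (L : Level A x0 ρ κ C3 t) (hκ : 0 < κ)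
    (hC3 : C3 = d + 2 / κ) {φ : ℝ} (hφ0 : 0 ≤ φ) (hφ : φ ≤ 1 / 2 ^ (t * (d + m))) :
    L.E φ ⊆ closedBall x0 (2 * ρ) := by
  simp only [Level.E, iUnion_subset_iff]
  intro x hx
  refine (L.piece_subset hd hκ hC3 hφ0 hφ hx).trans ?_
  apply closedBall_subset_closedBall'
  have h1 := mem_closedBall.1 (L.hu x hx)
  have h2 := L.hr
  linarith

theorem Level.E_eq_sum (hd : 0 < d) (L : Level A x0 ρ κ C3 t) (hκ : 0 < κ)
    (hC3 : C3 = d + 2 / κ) {φ : ℝ} (hφ0 : 0 ≤ φ) (hφ : φ ≤ 1 / 2 ^ (t * (d + m))) :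
    volume.real (L.E φ) = ∑ x ∈ L.u, volume.real (L.piece φ x) := by
  apply measureReal_biUnion_finset
  · intro x hx y hy hxy
    exact (L.hdisj hx hy hxy).mono (L.piece_subset hd hκ hC3 hφ0 hφ hx)
      (L.piece_subset hd hκ hC3 hφ0 hφ hy)
  · intro x _; exact L.measurableSet_piece φ x
  · intro x hx; exact L.piece_ne_top hκ hx

theorem Level.E_ge (hd : 0 < d) (L : Level A x0 ρ κ C3 t) (hκ : 0 < κ)
    (hC3 : C3 = d + 2 / κ) {φ : ℝ} (hφ0 : 0 ≤ φ) (hφ : φ ≤ 1 / 2 ^ (t * (d + m))) :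
    1 / (2 * (5 * C3) ^ d * CA A) * (2 * ρ) ^ d * (2 ^ (t * (d + m)) * φ)
      ≤ volume.real (L.E φ) := by
  rw [L.E_eq_sum hd hκ hC3 hφ0 hφ]
  have hCA := CA_pos A
  have h1 : ∑ _x ∈ L.u, (2 * sc d m t) ^ d * (2 ^ (t * (d + m)) * φ) / CA A
      ≤ ∑ x ∈ L.u, volume.real (L.piece φ x) :=
    Finset.sum_le_sum fun x hx => L.piece_ge hd hκ hφ0 hx
  refine le_trans ?_ h1
  rw [Finset.sum_const, nsmul_eq_mul]
  have h2 := L.hlow
  calc 1 / (2 * (5 * C3) ^ d * CA A) * (2 * ρ) ^ d * (2 ^ (t * (d + m)) * φ)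
      = ((2 * ρ) ^ d / (2 * (5 * C3) ^ d)) * ((2 ^ (t * (d + m)) * φ) / CA A) := by
        rw [div_mul_div_comm, one_div_mul_eq_div, div_mul_eq_mul_div]
    _ ≤ (L.u.card * (2 * sc d m t) ^ d) * ((2 ^ (t * (d + m)) * φ) / CA A) := by gcongr
    _ = _ := by ring

theorem Level.E_le (hd : 0 < d) (L : Level A x0 ρ κ C3 t) (hκ : 0 < κ)
    (hC3 : C3 = d + 2 / κ) {φ : ℝ} (hφ0 : 0 ≤ φ) (hφ : φ ≤ 1 / 2 ^ (t * (d + m))) :
    volume.real (L.E φ) ≤ 2 ^ d / κ * (2 * ρ) ^ d * (2 ^ (t * (d + m)) * φ) := by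
  rw [L.E_eq_sum hd hκ hC3 hφ0 hφ]
  have h1 : ∑ x ∈ L.u, volume.real (L.piece φ x)
      ≤ ∑ _x ∈ L.u, (2 * sc d m t) ^ d * (2 ^ (t * (d + m)) * φ) / κ :=
    Finset.sum_le_sum fun x hx => L.piece_le hd hκ hφ0 hx
  refine h1.trans ?_
  rw [Finset.sum_const, nsmul_eq_mul]
  have h2 := L.hup
  calc (L.u.card : ℝ) * ((2 * sc d m t) ^ d * (2 ^ (t * (d + m)) * φ) / κ)
      = (L.u.card * (2 * sc d m t) ^ d) * ((2 ^ (t * (d + m)) * φ) / κ) := by ring
    _ ≤ (2 ^ d * (2 * ρ) ^ d) * ((2 ^ (t * (d + m)) * φ) / κ) := by gcongr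
    _ = _ := by ring

open Classical in
/-- the number of points of a finer level whose pieces meet a given piece -/
theorem Level.card_meet_le (hd : 0 < d) {j k : ℕ} (hjk : j < k) (L : Level A x0 ρ κ C3 j)
    (M : Level A x0 ρ κ C3 k) (hκ : 0 < κ) (hC3 : C3 = d + 2 / κ) {φ φ' : ℝ}
    (hφ0 : 0 ≤ φ) (hφ0' : 0 ≤ φ') (hφ' : φ' ≤ 1 / 2 ^ (k * (d + m)))
    {x : Fin d → ℝ} (hx : x ∈ L.u) :
    (((M.u.filter fun y => (L.piece φ x ∩ M.piece φ' y).Nonempty).card : ℝ))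
      * (2 * sc d m k) ^ d ≤ (2 * sc d m j) ^ d * (((1 + 2 * C3) ^ (d - 1)
        * (1 / κ + 2 * d * C3)) * (2 ^ (j * (d + m)) * φ + sc d m k / sc d m j)) := by
  classical
  have hb := L.norm_b_pos hκ hx
  have hd1 : (1 : ℝ) ≤ d := by exact_mod_cast hd
  have hC31 : 1 ≤ C3 := by
    have : 0 < 2 / κ := by positivity
    rw [hC3]; linarith
  have hC3pos : 0 < C3 := by linarith
  set sj := sc d m j with hsj
  set sk := sc d m k with hsk
  have hsj0 : 0 < sj := sc_pos d m j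
  have hsk0 : 0 < sk := sc_pos d m k
  have hskj : sk ≤ sj := by
    rw [hsj, hsk]; unfold sc
    apply one_div_le_one_div_of_le (by positivity)
    apply pow_le_pow_right₀ one_le_two
    exact Nat.mul_le_mul_right _ hjk.le
  set r := C3 * sk with hr
  have hr0 : 0 < r := by positivity
  set Y := M.u.filter fun y => (L.piece φ x ∩ M.piece φ' y).Nonempty with hY
  set big := slabBox (L.a x) (L.b x) (L.idx x) x (sj + 2 * r) (φ + d * ‖L.b x‖ * (2 * r)) with hbig
  have hsub : (⋃ y ∈ Y, closedBall y r) ⊆ big := by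
    simp only [iUnion_subset_iff]
    intro y hy y' hy'
    obtain ⟨hyM, w, hw1, hw2⟩ := Finset.mem_filter.1 hy
    have h1 := M.piece_subset hd hκ hC3 hφ0' hφ' hyM hw2
    apply slabBox_thicken hw1
    rw [mem_closedBall] at h1 hy'
    calc dist y' w ≤ dist y' y + dist y w := dist_triangle _ _ _
      _ ≤ 2 * r := by rw [dist_comm y w]; linarith
  have hdisj : (Y : Set (Fin d → ℝ)).PairwiseDisjoint fun y => closedBall y r := by
    intro y hy y' hy' hne
    exact M.hdisj (Finset.mem_filter.1 hy).1 (Finset.mem_filter.1 hy').1 hne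
  have hvol : ∑ y ∈ Y, volume (closedBall y r) ≤ volume big := by
    rw [← measure_biUnion_finset hdisj (fun y _ => measurableSet_closedBall)]
    exact measure_mono hsub
  have h1 : ∀ y ∈ Y, volume (closedBall y r) = ENNReal.ofReal ((2 * r) ^ d) := by
    intro y _
    rw [Real.volume_pi_closedBall _ hr0.le, Fintype.card_fin]
  have hne : L.b x (L.idx x) ≠ 0 := by
    intro h
    have := L.hidx x hx
    rw [h, abs_zero] at this; linarith
  rw [Finset.sum_congr rfl h1, Finset.sum_const, nsmul_eq_mul, ← ENNReal.ofReal_natCast,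
    ← ENNReal.ofReal_mul (by positivity), hbig, volume_slabBox hne (by positivity),
    L.hidx x hx, ENNReal.ofReal_le_ofReal_iff (by positivity)] at hvol
  have h2 : (2 * sk) ^ d ≤ (2 * r) ^ d := by
    apply pow_le_pow_left₀ (by positivity)
    rw [hr]; nlinarith
  have h3 : (2 * (sj + 2 * r)) ^ (d - 1) ≤ (2 * sj) ^ (d - 1) * (1 + 2 * C3) ^ (d - 1) := by
    rw [← mul_pow]
    apply pow_le_pow_left₀ (by positivity)
    rw [hr]; nlinarith
  have h4 : 2 * (φ + d * ‖L.b x‖ * (2 * r)) / ‖L.b x‖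
      ≤ 2 * (φ / (κ * 2 ^ j) + 2 * d * C3 * sk) := by
    have h5 : φ / ‖L.b x‖ ≤ φ / (κ * 2 ^ j) := by
      have := (L.hblo x hx).le
      gcongr
    have h6 : 2 * (φ + d * ‖L.b x‖ * (2 * r)) / ‖L.b x‖
      = 2 * (φ / ‖L.b x‖ + 2 * d * C3 * sk) := by rw [hr]; field_simp
    rw [h6]; linarith
  have h5 : 2 * sj * (2 ^ (j * (d + m)) * φ) = 2 * (φ / 2 ^ j) := by
    have := sc_identity hd m j φ
    have e1 : (2 * sj) ^ d = (2 * sj) ^ (d - 1) * (2 * sj) := by
      rw [← pow_succ]; congr 1; omega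
    rw [← hsj, e1] at this
    have e2 : (2 * sj) ^ (d - 1) ≠ 0 := by positivity
    have e3 : (2 * sj) ^ (d - 1) * (2 * (φ / 2 ^ j))
      = (2 * sj) ^ (d - 1) * (2 * sj * (2 ^ (j * (d + m)) * φ)) := by
      calc (2 * sj) ^ (d - 1) * (2 * (φ / 2 ^ j)) = (2 * sj) ^ (d - 1) * (2 * φ) / 2 ^ j := by ring
        _ = _ := by rw [this]; ring
    exact (mul_left_cancel₀ e2 e3).symm
  calc (Y.card : ℝ) * (2 * sk) ^ d ≤ Y.card * (2 * r) ^ d := by gcongr
    _ ≤ (2 * (sj + 2 * r)) ^ (d - 1) * (2 * (φ + d * ‖L.b x‖ * (2 * r))) / ‖L.b x‖ := hvol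
    _ = (2 * (sj + 2 * r)) ^ (d - 1) * (2 * (φ + d * ‖L.b x‖ * (2 * r)) / ‖L.b x‖) := by ring
    _ ≤ ((2 * sj) ^ (d - 1) * (1 + 2 * C3) ^ (d - 1))
        * (2 * (φ / (κ * 2 ^ j) + 2 * d * C3 * sk)) := by gcongr
    _ ≤ ((2 * sj) ^ (d - 1) * (1 + 2 * C3) ^ (d - 1))
        * ((1 / κ + 2 * d * C3) * (2 * (φ / 2 ^ j) + 2 * sk)) := by
        have e1 : φ / (κ * 2 ^ j) = 1 / κ * (φ / 2 ^ j) := by field_simp
        have e2 : 0 ≤ 2 * d * C3 * (φ / 2 ^ j) := by positivity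
        have e3 : 0 ≤ 1 / κ * sk := by positivity
        apply mul_le_mul_of_nonneg_left _ (by positivity)
        rw [e1]
        nlinarith
    _ = (2 * sj) ^ d * (((1 + 2 * C3) ^ (d - 1)
        * (1 / κ + 2 * d * C3)) * (2 ^ (j * (d + m)) * φ + sk / sj)) := by
        have e1 : (2 * sj) ^ d = (2 * sj) ^ (d - 1) * (2 * sj) := by
          rw [← pow_succ]; congr 1; omega
        rw [e1, ← h5]
        have e2 : 2 * sk = 2 * sj * (sk / sj) := by field_simp
        rw [e2]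
        ring

/-- the overlap estimate -/
theorem Level.overlap (hd : 0 < d) {j k : ℕ} (hjk : j < k) (L : Level A x0 ρ κ C3 j)
    (M : Level A x0 ρ κ C3 k) (hκ : 0 < κ) (hC3 : C3 = d + 2 / κ) {φ φ' : ℝ}
    (hφ0 : 0 ≤ φ) (hφ0' : 0 ≤ φ') (hφφ' : φ' ≤ φ)
    (hφ' : φ' ≤ 1 / 2 ^ (k * (d + m))) (hρ : 0 < ρ) :
    volume.real (L.E φ ∩ M.E φ') ≤ (2 ^ d * ((1 + 2 * C3) ^ (d - 1)
      * (1 / κ + 2 * d * C3)) / κ) * (2 * ρ) ^ d * ((2 ^ (j * (d + m)) * φ)
        * (2 ^ (k * (d + m)) * φ') + (1 / 2) ^ (k - j) * (2 ^ (j * (d + m)) * φ)) := by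
  classical
  have hC31 : 1 ≤ C3 := by
    have : 0 < 2 / κ := by positivity
    have hd1 : (1 : ℝ) ≤ d := by exact_mod_cast hd
    rw [hC3]; linarith
  have hC3pos : 0 < C3 := by linarith
  set C4 := (1 + 2 * C3) ^ (d - 1) * (1 / κ + 2 * d * C3) with hC4
  have hC4pos : 0 ≤ C4 := by positivity
  have hsj0 : 0 < sc d m j := sc_pos d m j
  have hsk0 : 0 < sc d m k := sc_pos d m k
  set wj := 2 ^ (j * (d + m)) * φ with hwj
  set wk := 2 ^ (k * (d + m)) * φ' with hwk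
  have hwj0 : 0 ≤ wj := by positivity
  have hwk0 : 0 ≤ wk := by positivity
  have hcov : L.E φ ∩ M.E φ' ⊆ ⋃ x ∈ L.u, ⋃ y ∈ M.u.filter
      (fun y => (L.piece φ x ∩ M.piece φ' y).Nonempty), M.piece φ' y := by
    rintro w ⟨hw1, hw2⟩
    simp only [Level.E, mem_iUnion, exists_prop] at hw1 hw2 ⊢
    obtain ⟨x, hx, hwx⟩ := hw1
    obtain ⟨y, hy, hwy⟩ := hw2
    exact ⟨x, hx, y, Finset.mem_filter.2 ⟨hy, w, hwx, hwy⟩, hwy⟩
  have hfin : volume (⋃ x ∈ L.u, ⋃ y ∈ M.u.filter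
      (fun y => (L.piece φ x ∩ M.piece φ' y).Nonempty), M.piece φ' y) ≠ ⊤ := by
    apply ne_top_of_le_ne_top (b := volume (closedBall x0 (2 * ρ)))
    · rw [Real.volume_pi_closedBall _ (by positivity)]; exact ENNReal.ofReal_ne_top
    · apply measure_mono
      simp only [iUnion_subset_iff]
      intro x _ y hy
      refine Subset.trans ?_ (M.E_subset hd hκ hC3 hφ0' hφ')
      exact subset_biUnion_of_mem (u := fun y => M.piece φ' y) (Finset.mem_filter.1 hy).1
  refine (measureReal_mono hcov hfin).trans ?_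
  refine (measureReal_biUnion_finset_le _ _).trans ?_
  have h1 : ∀ x ∈ L.u, volume.real (⋃ y ∈ M.u.filter
      (fun y => (L.piece φ x ∩ M.piece φ' y).Nonempty), M.piece φ' y)
      ≤ (2 * sc d m j) ^ d * (C4 * (wj + sc d m k / sc d m j)) * (wk / κ) := by
    intro x hx
    refine (measureReal_biUnion_finset_le _ _).trans ?_
    have h2 : ∀ y ∈ M.u.filter (fun y => (L.piece φ x ∩ M.piece φ' y).Nonempty),
        volume.real (M.piece φ' y) ≤ (2 * sc d m k) ^ d * wk / κ := by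
      intro y hy
      exact M.piece_le hd hκ hφ0' (Finset.mem_filter.1 hy).1
    refine (Finset.sum_le_sum h2).trans ?_
    rw [Finset.sum_const, nsmul_eq_mul]
    have h3 := Level.card_meet_le hd hjk L M hκ hC3 hφ0 hφ0' hφ' hx
    rw [← hC4, ← hwj] at h3
    calc _ = (((M.u.filter fun y => (L.piece φ x ∩ M.piece φ' y).Nonempty).card : ℝ)
          * (2 * sc d m k) ^ d) * (wk / κ) := by ring
      _ ≤ _ := by gcongr
  refine (Finset.sum_le_sum h1).trans ?_
  rw [Finset.sum_const, nsmul_eq_mul]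
  have h4 := L.hup
  have h5 : sc d m k / sc d m j * wk ≤ (1 / 2) ^ (k - j) * wj := by
    have e1 : sc d m k / sc d m j * wk
        = (1 / 2) ^ (k - j) * (2 ^ (j * (d + m)) * φ') := by
      obtain ⟨l, rfl⟩ := Nat.exists_eq_add_of_lt hjk
      have e2 : j + l + 1 - j = l + 1 := by omega
      rw [e2, hwk]
      unfold sc
      have e3 : (2 : ℝ) ^ ((j + l + 1) * (d + m + 1))
          = 2 ^ (j * (d + m + 1)) * 2 ^ ((l + 1) * (d + m)) * 2 ^ (l + 1) := by
        rw [← pow_add, ← pow_add]; congr 1; ring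
      have e4 : (2 : ℝ) ^ ((j + l + 1) * (d + m)) = 2 ^ (j * (d + m)) * 2 ^ ((l + 1) * (d + m)) := by
        rw [← pow_add]; congr 1; ring
      rw [e3, e4, one_div_pow]
      field_simp
    rw [e1, hwj]
    gcongr
  calc (L.u.card : ℝ) * ((2 * sc d m j) ^ d * (C4 * (wj + sc d m k / sc d m j)) * (wk / κ))
      = (L.u.card * (2 * sc d m j) ^ d) * (C4 / κ * (wj * wk + sc d m k / sc d m j * wk)) := by
        ring
    _ ≤ (2 ^ d * (2 * ρ) ^ d) * (C4 / κ * (wj * wk + (1 / 2) ^ (k - j) * wj)) := by gcongr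
    _ = 2 ^ d * C4 / κ * (2 * ρ) ^ d * (wj * wk + (1 / 2) ^ (k - j) * wj) := by ring

end level

/-- a positive proportion of every ball lies in the limsup set -/
theorem exists_proportion (hd : 0 < d) (hm : 0 < m) {A : Matrix (Fin (d + 1)) (Fin m) ℝ} {β c : ℝ}
    (h : Hyp A β c) : ∃ η : ℝ, 0 < η ∧ ∀ ψ : ℕ → ℝ, Admissible ψ →
      ¬ Summable (fun k : ℕ => (k : ℝ) ^ (d + m - 1) * ψ k) →
      ∀ (x0 : Fin d → ℝ) (ρ : ℝ), 0 < ρ → ∃ S : Set (Fin d → ℝ), MeasurableSet S ∧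
        S ⊆ closedBall x0 (2 * ρ) ∧ (∀ x ∈ S, point A x ∈ W ψ) ∧
        η * (2 * ρ) ^ d ≤ volume.real S := by
  have hC1 : 1 ≤ C1 d m := by
    unfold C1
    have : (0 : ℝ) ≤ (2 * d + 2) * 3 ^ (d + m) := by positivity
    linarith
  have hC1pos : 0 < C1 d m := by linarith
  set κ : ℝ := 1 / (2 * C1 d m) with hκdef
  have hκ : 0 < κ := by positivity
  have hκ1 : κ ≤ 1 := by
    rw [hκdef, div_le_one (by positivity)]; linarith
  have hκ2 : C1 d m * κ ^ d ≤ 1 / 2 := by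
    have h1 : κ ^ d ≤ κ := by
      calc κ ^ d ≤ κ ^ 1 := pow_le_pow_of_le_one hκ.le hκ1 hd
        _ = κ := pow_one κ
    calc C1 d m * κ ^ d ≤ C1 d m * κ := by gcongr
      _ = 1 / 2 := by rw [hκdef]; field_simp
  set C3 : ℝ := d + 2 / κ with hC3
  have hd1 : (1 : ℝ) ≤ d := by exact_mod_cast hd
  have hC31 : 1 ≤ C3 := by
    have : 0 < 2 / κ := by positivity
    rw [hC3]; linarith
  have hC3pos : 0 < C3 := by linarith
  have hCA := CA_pos A
  set C4 := (1 + 2 * C3) ^ (d - 1) * (1 / κ + 2 * d * C3) with hC4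
  have hC41 : 1 ≤ C4 := by
    have h1 : 1 ≤ (1 + 2 * C3) ^ (d - 1) := one_le_pow₀ (by linarith)
    have h2 : 1 ≤ 1 / κ + 2 * d * C3 := by
      have : 0 < 1 / κ := by positivity
      nlinarith
    calc (1 : ℝ) = 1 * 1 := (one_mul 1).symm
      _ ≤ C4 := by rw [hC4]; gcongr
  set cc := 1 / (2 * (5 * C3) ^ d * CA A) with hcc
  set CC := 2 ^ d * C4 / κ with hCC
  have hccpos : 0 < cc := by positivity
  have hCCpos : 0 < CC := by positivity
  refine ⟨cc ^ 2 / (5 * CC), by positivity, ?_⟩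
  intro ψ hψ hdiv x0 ρ hρ
  have hcond : ¬ Summable (fun t : ℕ => (2 : ℝ) ^ (t * (d + m)) * ψ (2 ^ t)) := fun hs =>
    hdiv ((summable_condensed_iff' (n := d + m) (by omega) hψ).2 hs)
  obtain ⟨t0, ht0⟩ := exists_level hd h hκ hκ2 hC31 x0 hρ
  have L : ∀ t : ℕ, Nonempty (Level A x0 ρ κ C3 (t + t0)) := fun t => ht0 _ (by omega)
  set φ : ℕ → ℝ := fun t => min (ψ (2 ^ (t + t0))) (1 / 2 ^ ((t + t0) * (d + m))) with hφdef
  have hφpos : ∀ t, 0 < φ t := fun t => lt_min (hψ.1 _ Nat.one_le_two_pow) (by positivity)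
  have hφle : ∀ t, φ t ≤ 1 / 2 ^ ((t + t0) * (d + m)) := fun t => min_le_right _ _
  have hφψ : ∀ t, φ t ≤ ψ (2 ^ (t + t0)) := fun t => min_le_left _ _
  have hφanti : ∀ s t, s ≤ t → φ t ≤ φ s := by
    intro s t hst
    apply min_le_min
    · exact hψ.2 _ _ Nat.one_le_two_pow (Nat.pow_le_pow_right (by norm_num) (by omega))
    · apply one_div_le_one_div_of_le (by positivity)
      apply pow_le_pow_right₀ one_le_two
      exact Nat.mul_le_mul_right _ (by omega)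
  set w : ℕ → ℝ := fun t => 2 ^ ((t + t0) * (d + m)) * φ t with hw
  have hwnn : ∀ t, 0 ≤ w t := fun t => by
    have := hφpos t
    simp only [hw]; positivity
  have hwdiv : ¬ Summable w := by
    intro hs
    apply hcond
    rw [← summable_nat_add_iff t0]
    have hlim := hs.tendsto_atTop_zero
    obtain ⟨N, hN⟩ := Filter.eventually_atTop.1 (hlim.eventually_lt_const (show (0 : ℝ) < 1 by
      norm_num))
    rw [← summable_nat_add_iff N] at hs ⊢
    refine hs.congr fun t => ?_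
    have h1 := hN (t + N) (by omega)
    simp only [hw, hφdef] at h1 ⊢
    rcases min_choice (ψ (2 ^ (t + N + t0))) (1 / 2 ^ ((t + N + t0) * (d + m))) with h2 | h2
    · rw [h2]
    · exfalso
      rw [h2] at h1
      have : (2 : ℝ) ^ ((t + N + t0) * (d + m)) * (1 / 2 ^ ((t + N + t0) * (d + m))) = 1 := by
        field_simp
      linarith
  set E : ℕ → Set (Fin d → ℝ) := fun t => (L t).some.E (φ t) with hE
  have hEsub : ∀ t, E t ⊆ closedBall x0 (2 * ρ) := fun t =>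
    (L t).some.E_subset hd hκ hC3 (hφpos t).le (hφle t)
  have hEm : ∀ t, MeasurableSet (E t) := fun t => (L t).some.measurableSet_E _
  have hfinball : volume (closedBall x0 (2 * ρ)) ≠ ⊤ := by
    rw [Real.volume_pi_closedBall _ (by positivity)]; exact ENNReal.ofReal_ne_top
  have hmain := measure_frequently_ge (volume : Measure (Fin d → ℝ)) E hEm
    (closedBall x0 (2 * ρ)) hfinball hEsub w hwnn hwdiv cc CC ((2 * ρ) ^ d) hccpos hCCpos
    (by positivity)
    (fun t => (L t).some.E_ge hd hκ hC3 (hφpos t).le (hφle t))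
    (fun t => by
      refine ((L t).some.E_le hd hκ hC3 (hφpos t).le (hφle t)).trans ?_
      have h1 : 2 ^ d / κ ≤ CC := by
        rw [hCC]
        apply div_le_div_of_nonneg_right _ hκ.le
        nlinarith [show (0 : ℝ) < 2 ^ d by positivity]
      have := hwnn t
      simp only [hw] at this ⊢
      gcongr)
    (fun s t hst => by
      have := Level.overlap hd (show s + t0 < t + t0 by omega) (L s).some (L t).some hκ hC3
        (hφpos s).le (hφpos t).le (hφanti s t hst.le) (hφle t) hρ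
      have e : t + t0 - (s + t0) = t - s := by omega
      rw [e] at this
      exact this)
  refine ⟨{x | ∃ᶠ t in Filter.atTop, x ∈ E t}, ?_, ?_, ?_, hmain⟩
  · have : {x | ∃ᶠ t in Filter.atTop, x ∈ E t} = ⋂ N, ⋃ t, ⋃ (_ : N ≤ t), E t := by
      ext x
      simp only [mem_ofPred_eq, Filter.frequently_atTop, mem_iInter, mem_iUnion, exists_prop]
    rw [this]
    exact MeasurableSet.iInter fun N => MeasurableSet.iUnion fun t =>
      MeasurableSet.iUnion fun _ => hEm t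
  · intro x hx
    obtain ⟨t, ht⟩ := Filter.Frequently.exists hx
    exact hEsub t ht
  · intro x hx
    show {q : Fin (d + m) → ℤ | q ≠ 0 ∧
      distInt (∑ i, (q i : ℝ) * point A x i) < ψ (supNorm q)}.Infinite
    intro hfin
    -- slopes are bounded on a finite set
    obtain ⟨M, hM⟩ : ∃ M : ℝ, ∀ q ∈ {q : Fin (d + m) → ℤ | q ≠ 0 ∧
        distInt (∑ i, (q i : ℝ) * point A x i) < ψ (supNorm q)},
        ‖bvec A (fun i => q (Fin.castAdd m i)) (fun j => q (Fin.natAdd d j))‖ ≤ M := by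
      obtain ⟨M, hM⟩ := (hfin.image (fun q : Fin (d + m) → ℤ =>
        ‖bvec A (fun i => q (Fin.castAdd m i)) (fun j => q (Fin.natAdd d j))‖)).bddAbove
      exact ⟨M, fun q hq => hM (mem_image_of_mem _ hq)⟩
    have hev : ∀ᶠ t : ℕ in Filter.atTop, M / κ ≤ (2 : ℝ) ^ t :=
      (tendsto_pow_atTop_atTop_of_one_lt (one_lt_two)).eventually_ge_atTop _
    obtain ⟨N, hN⟩ := Filter.eventually_atTop.1 hev
    obtain ⟨t, htN, ht⟩ := (Filter.frequently_atTop.1 hx) N
    simp only [hE, Level.E, mem_iUnion, exists_prop] at ht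
    obtain ⟨y, hy, hxy⟩ := ht
    obtain ⟨z, p, hz, hzb, ha, hb⟩ := (L t).some.hab y hy
    have h1 : |aff ((L t).some.a y) ((L t).some.b y) x| < φ t := hxy.2
    have h2 : κ * 2 ^ (t + t0) < ‖(L t).some.b y‖ := (L t).some.hblo y hy
    have hmem : z ∈ {q : Fin (d + m) → ℤ | q ≠ 0 ∧
        distInt (∑ i, (q i : ℝ) * point A x i) < ψ (supNorm q)} := by
      refine ⟨hz, ?_⟩
      rw [distInt_lt_iff]
      refine ⟨p, ?_⟩
      rw [sum_point]
      rw [ha, hb] at h1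
      have e : aff (p + acoef A (fun j => z (Fin.natAdd d j)))
        (bvec A (fun i => z (Fin.castAdd m i)) (fun j => z (Fin.natAdd d j))) x
        = p + aff (acoef A (fun j => z (Fin.natAdd d j)))
        (bvec A (fun i => z (Fin.castAdd m i)) (fun j => z (Fin.natAdd d j))) x := by
        unfold aff; ring
      rw [e] at h1
      refine lt_of_lt_of_le h1 ((hφψ t).trans ?_)
      apply hψ.2 _ _ (supNorm_pos hz)
      exact supNorm_le_iff.2 (by simpa using hzb)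
    have h3 := hM z hmem
    rw [← hb] at h3
    have h4 := hN (t + t0) (by omega)
    rw [div_le_iff₀ hκ] at h4
    linarith

theorem groshevDivergence_of_hyp (hd : 0 < d) (hm : 0 < m)
    {A : Matrix (Fin (d + 1)) (Fin m) ℝ} {β c : ℝ} (h : Hyp A β c) : GroshevDivergence A := by
  intro ψ hψ hdiv
  obtain ⟨η, hη, hprop⟩ := exists_proportion hd hm h
  set S : Set (Fin d → ℝ) := {x | point A x ∉ W ψ} with hS
  have hball : ∀ (x0 : Fin d → ℝ) (ρ : ℝ), 0 < ρ →
      volume (S ∩ closedBall x0 ρ) / volume (closedBall x0 ρ)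
        ≤ ENNReal.ofReal (1 - η / 2 ^ d) := by
    intro x0 ρ hρ
    obtain ⟨G, hGm, hGsub, hGW, hGvol⟩ := hprop ψ hψ hdiv x0 (ρ / 2) (by positivity)
    have e1 : 2 * (ρ / 2) = ρ := by ring
    rw [e1] at hGsub hGvol
    have hfinball : volume (closedBall x0 ρ) ≠ ⊤ := by
      rw [Real.volume_pi_closedBall _ (by positivity)]; exact ENNReal.ofReal_ne_top
    have hsub : S ∩ closedBall x0 ρ ⊆ closedBall x0 ρ \ G := by
      rintro x ⟨hx1, hx2⟩
      exact ⟨hx2, fun hxG => hx1 (hGW x hxG)⟩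
    have hfinG : volume G ≠ ⊤ := ne_top_of_le_ne_top hfinball (measure_mono hGsub)
    have h1 : volume (S ∩ closedBall x0 ρ) ≤ ENNReal.ofReal ((2 * ρ) ^ d - η * ρ ^ d) := by
      refine (measure_mono hsub).trans ?_
      rw [measure_sdiff hGsub hGm.nullMeasurableSet hfinG, Real.volume_pi_closedBall _ hρ.le,
        Fintype.card_fin, ENNReal.ofReal_sub _ (by positivity)]
      apply tsub_le_tsub_left
      exact ENNReal.ofReal_le_of_le_toReal hGvol
    have h2 : volume (closedBall x0 ρ) = ENNReal.ofReal ((2 * ρ) ^ d) := by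
      rw [Real.volume_pi_closedBall _ hρ.le, Fintype.card_fin]
    rw [h2]
    apply ENNReal.div_le_of_le_mul
    refine h1.trans ?_
    rw [← ENNReal.ofReal_mul' (by positivity)]
    apply ENNReal.ofReal_le_ofReal
    rw [sub_mul, one_mul, mul_pow]
    apply le_of_eq
    field_simp
  have hlim := Besicovitch.ae_tendsto_measure_inter_div (volume : Measure (Fin d → ℝ)) S
  have hfalse : ∀ᵐ x ∂(volume.restrict S), False := by
    filter_upwards [hlim] with x hx
    have h1 : ∀ᶠ r : ℝ in nhdsWithin 0 (Ioi 0),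
        volume (S ∩ closedBall x r) / volume (closedBall x r)
          ≤ ENNReal.ofReal (1 - η / 2 ^ d) := by
      filter_upwards [self_mem_nhdsWithin] with r hr
      exact hball x r hr
    have h2 := le_of_tendsto hx h1
    have h3 : ENNReal.ofReal (1 - η / 2 ^ d) < 1 := by
      rw [ENNReal.ofReal_lt_one]
      have : 0 < η / 2 ^ d := by positivity
      linarith
    exact absurd h3 (not_lt.2 h2)
  have h0 : volume.restrict S = 0 := by
    rw [Filter.eventually_false_iff_eq_bot, ae_eq_bot] at hfalse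
    exact hfalse
  exact Measure.restrict_eq_zero.1 h0

end Pool.Agent.H639R3.G
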