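import Pool.Agent.H639R3.G.Conv

/-!
The construction at one dyadic level: many well separated points at which some form is very small
and has a large slope.
-/

open MeasureTheory Set Metric

namespace Pool.Agent.H639R3.G

variable {d m : ℕ}

/-- Dirichlet's theorem for one linear form -/
theorem dirichlet {n : ℕ} (y : Fin n → ℝ) {Q : ℕ} (hQ : 0 < Q) (hn : 0 < n) :
    ∃ z : Fin n → ℤ, z ≠ 0 ∧ (∀ i, |z i| ≤ Q) ∧
      ∃ p : ℤ, |p + ∑ i, (z i : ℝ) * y i| < 1 / (Q : ℝ) ^ n := by
  classical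
  set s : (Fin n → Fin (Q + 1)) → ℝ := fun u => ∑ i, ((u i : ℕ) : ℝ) * y i with hs
  have hQn : (0 : ℝ) < (Q : ℝ) ^ n := by positivity
  obtain ⟨u, -, v, -, huv, hf⟩ := Finset.exists_ne_map_eq_of_card_lt_of_maps_to
    (s := (Finset.univ : Finset (Fin n → Fin (Q + 1)))) (t := Finset.Ico (0 : ℤ) (Q ^ n))
    (by
      rw [Int.card_Ico, Finset.card_univ, Fintype.card_fun, Fintype.card_fin, Fintype.card_fin,
        sub_zero]
      have h1 : ((Q : ℤ) ^ n).toNat = Q ^ n := by
        rw [← Nat.cast_pow, Int.toNat_natCast]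
      rw [h1]
      exact Nat.pow_lt_pow_left (by omega) hn.ne')
    (f := fun u => ⌊(Q : ℝ) ^ n * Int.fract (s u)⌋)
    (by
      intro u _
      simp only [Finset.coe_Ico, mem_Ico]
      constructor
      · apply Int.floor_nonneg.2
        have := Int.fract_nonneg (s u)
        positivity
      · rw [Int.floor_lt]
        push_cast
        have := Int.fract_lt_one (s u)
        nlinarith)
  have h1 := Int.abs_sub_lt_one_of_floor_eq_floor hf
  refine ⟨fun i => ((u i : ℕ) : ℤ) - ((v i : ℕ) : ℤ), ?_, ?_, ⌊s v⌋ - ⌊s u⌋, ?_⟩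
  · intro h0
    apply huv
    ext i
    have := congrFun h0 i
    simp only [Pi.zero_apply] at this
    omega
  · intro i
    have h2 := (u i).2
    have h3 := (v i).2
    show |((u i : ℕ) : ℤ) - ((v i : ℕ) : ℤ)| ≤ Q
    rw [abs_le]
    constructor <;> omega
  · have h2 : ∑ i, (((((u i : ℕ) : ℤ) - ((v i : ℕ) : ℤ) : ℤ)) : ℝ) * y i = s u - s v := by
      rw [hs]
      simp only
      rw [← Finset.sum_sub_distrib]
      apply Finset.sum_congr rfl
      intro i _
      push_cast
      ring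
    rw [h2]
    push_cast
    have h3 : (⌊s v⌋ : ℝ) - ⌊s u⌋ + (s u - s v) = Int.fract (s u) - Int.fract (s v) := by
      rw [Int.fract, Int.fract]; ring
    rw [h3, lt_div_iff₀ hQn]
    rw [← mul_sub, abs_mul, abs_of_pos hQn] at h1
    linarith

/-- the scale at level `t` -/
noncomputable def sc (d m t : ℕ) : ℝ := 1 / 2 ^ (t * (d + m + 1))

theorem sc_pos (d m t : ℕ) : 0 < sc d m t := by unfold sc; positivity

/-- the data at one level -/
structure Level (A : Matrix (Fin (d + 1)) (Fin m) ℝ) (x0 : Fin d → ℝ) (ρ κ C3 : ℝ) (t : ℕ) where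
  u : Finset (Fin d → ℝ)
  a : (Fin d → ℝ) → ℝ
  b : (Fin d → ℝ) → (Fin d → ℝ)
  idx : (Fin d → ℝ) → Fin d
  hu : ∀ x ∈ u, x ∈ closedBall x0 ρ
  hidx : ∀ x ∈ u, |b x (idx x)| = ‖b x‖
  hblo : ∀ x ∈ u, κ * 2 ^ t < ‖b x‖
  hbhi : ∀ x ∈ u, ‖b x‖ ≤ CA A * 2 ^ t
  hab : ∀ x ∈ u, ∃ (z : Fin (d + m) → ℤ) (p : ℤ), z ≠ 0 ∧ (∀ i, |z i| ≤ 2 ^ t) ∧
    a x = p + acoef A (fun j => z (Fin.natAdd d j)) ∧
    b x = bvec A (fun i => z (Fin.castAdd m i)) (fun j => z (Fin.natAdd d j))
  hval : ∀ x ∈ u, |aff (a x) (b x) x| ≤ 1 / 2 ^ (t * (d + m))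
  hdisj : (u : Set (Fin d → ℝ)).PairwiseDisjoint fun x => closedBall x (C3 * sc d m t)
  hr : C3 * sc d m t ≤ ρ
  hlow : (2 * ρ) ^ d / (2 * (5 * C3) ^ d) ≤ u.card * (2 * sc d m t) ^ d
  hup : u.card * (2 * sc d m t) ^ d ≤ 2 ^ d * (2 * ρ) ^ d

theorem exists_level (hd : 0 < d) {A : Matrix (Fin (d + 1)) (Fin m) ℝ} {β c : ℝ}
    (h : Hyp A β c) {κ : ℝ} (hκ : 0 < κ) (hκ2 : C1 d m * κ ^ d ≤ 1 / 2) {C3 : ℝ} (hC3 : 1 ≤ C3)
    (x0 : Fin d → ℝ) {ρ : ℝ} (hρ : 0 < ρ) :
    ∃ t0 : ℕ, ∀ t, t0 ≤ t → Nonempty (Level A x0 ρ κ C3 t) := by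
  classical
  obtain ⟨t0, ht0⟩ := volume_Bad_le hd h x0 hρ hκ
  have hlim : Filter.Tendsto (fun t : ℕ => C3 * sc d m t) Filter.atTop (nhds 0) := by
    have h1 : (fun t : ℕ => C3 * sc d m t) = fun t => C3 * ((1 / 2 ^ (d + m + 1)) ^ t) := by
      ext t
      unfold sc
      rw [one_div_pow, ← pow_mul, mul_comm t]
    rw [h1, ← mul_zero C3]
    apply Filter.Tendsto.const_mul
    apply tendsto_pow_atTop_nhds_zero_of_lt_one (by positivity)
    rw [div_lt_one (by positivity)]
    exact one_lt_pow₀ one_lt_two (by omega)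
  obtain ⟨t1, ht1⟩ := Filter.eventually_atTop.1 (hlim.eventually_le_const hρ)
  refine ⟨max t0 t1, fun t ht => ?_⟩
  have hrρ := ht1 t (le_trans (le_max_right _ _) ht)
  have hbad := ht0 t (le_trans (le_max_left _ _) ht) (1 / 2 ^ (t * (d + m))) (by positivity) le_rfl
  set s := sc d m t with hs
  have hspos : 0 < s := sc_pos d m t
  set r := C3 * s with hr
  have hrpos : 0 < r := by positivity
  set G : Set (Fin d → ℝ) := closedBall x0 ρ \ Bad A x0 ρ t (κ * 2 ^ t) (1 / 2 ^ (t * (d + m)))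
    with hG
  -- data at a good point
  have hgood : ∀ x ∈ G, ∃ (z : Fin (d + m) → ℤ) (p : ℤ), z ≠ 0 ∧ (∀ i, |z i| ≤ 2 ^ t) ∧
      κ * 2 ^ t < ‖bvec A (fun i => z (Fin.castAdd m i)) (fun j => z (Fin.natAdd d j))‖ ∧
      |aff (p + acoef A (fun j => z (Fin.natAdd d j)))
        (bvec A (fun i => z (Fin.castAdd m i)) (fun j => z (Fin.natAdd d j))) x|
        < 1 / 2 ^ (t * (d + m)) := by
    rintro x ⟨hx1, hx2⟩
    obtain ⟨z, hz, hzb, p, hp⟩ := dirichlet (point A x) (Q := 2 ^ t) (by positivity)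
      (show 0 < d + m by omega)
    rw [sum_point] at hp
    have hpow : ((2 ^ t : ℕ) : ℝ) ^ (d + m) = 2 ^ (t * (d + m)) := by
      push_cast; rw [← pow_mul]
    rw [hpow] at hp
    have hzb' : ∀ i, |z i| ≤ 2 ^ t := by simpa using hzb
    refine ⟨z, p, hz, hzb', ?_, ?_⟩
    · by_contra hcon
      push Not at hcon
      apply hx2
      refine ⟨hx1, _, _, p, ?_, fun j => hzb' _, hcon, hp⟩
      rintro ⟨e1, e2⟩
      apply hz
      ext i
      refine Fin.addCases (fun i => ?_) (fun j => ?_) i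
      · exact congrFun e1 i
      · exact congrFun e2 j
    · have : aff (p + acoef A (fun j => z (Fin.natAdd d j)))
        (bvec A (fun i => z (Fin.castAdd m i)) (fun j => z (Fin.natAdd d j))) x
        = p + aff (acoef A (fun j => z (Fin.natAdd d j)))
        (bvec A (fun i => z (Fin.castAdd m i)) (fun j => z (Fin.natAdd d j))) x := by
        unfold aff; ring
      rw [this]; exact hp
  choose! z p hz0 hzb hzlo hzval using hgood
  have hidx : ∀ x : Fin d → ℝ, ∃ i, |bvec A (fun i => z x (Fin.castAdd m i))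
      (fun j => z x (Fin.natAdd d j)) i| = ‖bvec A (fun i => z x (Fin.castAdd m i))
      (fun j => z x (Fin.natAdd d j))‖ := fun x => exists_max_coord hd _
  choose idx hidx using hidx
  -- Vitali
  obtain ⟨v, hvG, hvdisj, hvcov⟩ := Vitali.exists_disjoint_subfamily_covering_enlargement_closedBall
    G (fun x => x) (fun _ => r) r (fun _ _ => le_rfl) 5 (by norm_num)
  have hsubball : ∀ x ∈ v, closedBall x r ⊆ closedBall x0 (2 * ρ) := by
    intro x hx
    apply closedBall_subset_closedBall'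
    have := mem_closedBall.1 (hvG hx).1
    linarith
  have hvfin : v.Finite := by
    have h1 := Measure.finite_const_le_meas_of_disjoint_iUnion (volume : Measure (Fin d → ℝ))
      (ε := ENNReal.ofReal ((2 * r) ^ d)) (by rw [ENNReal.ofReal_pos]; positivity)
      (As := fun x : v => closedBall (x : Fin d → ℝ) r) (fun x => measurableSet_closedBall)
      (fun x y hxy => hvdisj x.2 y.2 (fun h => hxy (Subtype.ext h)))
      (by
        apply ne_top_of_le_ne_top (b := volume (closedBall x0 (2 * ρ)))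
        · rw [Real.volume_pi_closedBall _ (by positivity)]; exact ENNReal.ofReal_ne_top
        · apply measure_mono
          exact iUnion_subset fun x => hsubball x x.2)
    have h2 : {x : v | ENNReal.ofReal ((2 * r) ^ d) ≤ volume (closedBall (x : Fin d → ℝ) r)}
        = univ := by
      ext x
      simp only [mem_ofPred_eq, mem_univ, iff_true]
      rw [Real.volume_pi_closedBall _ hrpos.le, Fintype.card_fin]
    rw [h2] at h1
    have h3 : Finite v := Set.finite_univ_iff.1 h1
    exact Set.toFinite v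
  set u := hvfin.toFinset with hu
  have hmem : ∀ x, x ∈ u ↔ x ∈ v := fun x => hvfin.mem_toFinset
  have hudisj : (u : Set (Fin d → ℝ)).PairwiseDisjoint fun x => closedBall x r := by
    intro x hx y hy hxy
    exact hvdisj ((hmem x).1 hx) ((hmem y).1 hy) hxy
  have hC3pos : 0 < C3 := by linarith
  refine ⟨⟨u, fun x => p x + acoef A (fun j => z x (Fin.natAdd d j)),
    fun x => bvec A (fun i => z x (Fin.castAdd m i)) (fun j => z x (Fin.natAdd d j)), idx,
    fun x hx => (hvG ((hmem x).1 hx)).1, fun x _ => hidx x,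
    fun x hx => hzlo x (hvG ((hmem x).1 hx)), ?_, ?_,
    fun x hx => (hzval x (hvG ((hmem x).1 hx))).le, hudisj, hrρ, ?_, ?_⟩⟩
  · intro x hx
    have hb := hzb x (hvG ((hmem x).1 hx))
    apply norm_bvec_le A (by positivity)
    · intro i
      have := hb (Fin.castAdd m i)
      rw [← Int.cast_abs]; exact_mod_cast this
    · intro j
      have := hb (Fin.natAdd d j)
      rw [← Int.cast_abs]; exact_mod_cast this
  · intro x hx
    have hxG := hvG ((hmem x).1 hx)
    exact ⟨z x, p x, hz0 x hxG, hzb x hxG, rfl, rfl⟩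
  · -- lower bound for the cardinality
    have hGle : volume G ≤ ENNReal.ofReal (u.card * (2 * (5 * r)) ^ d) := by
      have hcov : G ⊆ ⋃ x ∈ u, closedBall x (5 * r) := by
        intro y hy
        obtain ⟨b, hb, hsub⟩ := hvcov y hy
        simp only [mem_iUnion]
        exact ⟨b, (hmem b).2 hb, hsub (mem_closedBall_self hrpos.le)⟩
      refine (measure_mono hcov).trans ((measure_biUnion_finset_le _ _).trans ?_)
      have : ∀ x ∈ u, volume (closedBall x (5 * r)) = ENNReal.ofReal ((2 * (5 * r)) ^ d) := by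
        intro x _
        rw [Real.volume_pi_closedBall _ (by positivity), Fintype.card_fin]
      rw [Finset.sum_congr rfl this, Finset.sum_const, nsmul_eq_mul,
        ENNReal.ofReal_mul (by positivity), ENNReal.ofReal_natCast]
    have hball : volume (closedBall x0 ρ) = ENNReal.ofReal ((2 * ρ) ^ d) := by
      rw [Real.volume_pi_closedBall _ hρ.le, Fintype.card_fin]
    have hbad' : volume (Bad A x0 ρ t (κ * 2 ^ t) (1 / 2 ^ (t * (d + m))))
        ≤ ENNReal.ofReal ((2 * ρ) ^ d / 2) := by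
      refine hbad.trans (ENNReal.ofReal_le_ofReal ?_)
      have e1 : (2 : ℝ) ^ (t * (d + m)) * (1 / 2 ^ (t * (d + m))) = 1 := by field_simp
      rw [e1, mul_one]
      have : 0 < (2 * ρ) ^ d := by positivity
      nlinarith
    have hle : volume (closedBall x0 ρ) ≤ volume (Bad A x0 ρ t (κ * 2 ^ t)
        (1 / 2 ^ (t * (d + m)))) + volume G := by
      refine le_trans (measure_mono ?_) (measure_union_le _ _)
      intro y hy
      by_cases hyb : y ∈ Bad A x0 ρ t (κ * 2 ^ t) (1 / 2 ^ (t * (d + m)))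
      · exact Or.inl hyb
      · exact Or.inr ⟨hy, hyb⟩
    rw [hball] at hle
    have h1 := hle.trans (add_le_add hbad' hGle)
    rw [← ENNReal.ofReal_add (by positivity) (by positivity),
      ENNReal.ofReal_le_ofReal_iff (by positivity)] at h1
    rw [div_le_iff₀ (by positivity)]
    have e2 : (2 * (5 * r)) ^ d = (2 * s) ^ d * (5 * C3) ^ d := by
      rw [← mul_pow, hr]; congr 1; ring
    rw [e2] at h1
    nlinarith
  · -- upper bound for the cardinality
    have h1 : ∑ x ∈ u, volume (closedBall x r) ≤ volume (closedBall x0 (2 * ρ)) := by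
      rw [← measure_biUnion_finset hudisj (fun x _ => measurableSet_closedBall)]
      apply measure_mono
      simp only [iUnion_subset_iff]
      intro x hx
      exact hsubball x ((hmem x).1 hx)
    have : ∀ x ∈ u, volume (closedBall x r) = ENNReal.ofReal ((2 * r) ^ d) := by
      intro x _
      rw [Real.volume_pi_closedBall _ hrpos.le, Fintype.card_fin]
    rw [Finset.sum_congr rfl this, Finset.sum_const, nsmul_eq_mul, ← ENNReal.ofReal_natCast,
      ← ENNReal.ofReal_mul (by positivity), Real.volume_pi_closedBall _ (by positivity),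
      Fintype.card_fin, ENNReal.ofReal_le_ofReal_iff (by positivity)] at h1
    have h2 : (2 * s) ^ d ≤ (2 * r) ^ d := by
      apply pow_le_pow_left₀ (by positivity)
      rw [hr]; nlinarith
    calc (u.card : ℝ) * (2 * s) ^ d ≤ u.card * (2 * r) ^ d := by gcongr
      _ ≤ (2 * (2 * ρ)) ^ d := h1
      _ = 2 ^ d * (2 * ρ) ^ d := by rw [mul_pow]

end Pool.Agent.H639R3.G
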