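import Pool.Agent.H639R3.G.Dio

/-!
The union bound: points of a ball with a small value of an integral form of small slope.
-/

open MeasureTheory Set Metric

namespace Pool.Agent.H639R3.G

variable {d m : ℕ}

/-- the slope of the form attached to the integer vector `(q', q)` -/
noncomputable def bvec (A : Matrix (Fin (d + 1)) (Fin m) ℝ) (q' : Fin d → ℤ) (q : Fin m → ℤ) :
    Fin d → ℝ := fun i => q' i + ev A q i.succ

/-- the constant term of the form attached to the integer vector `(q', q)` -/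
noncomputable def acoef (A : Matrix (Fin (d + 1)) (Fin m) ℝ) (q : Fin m → ℤ) : ℝ := ev A q 0

/-- `‖A qᵀ‖`, with the value `1` at `q = 0` -/
noncomputable def gq (A : Matrix (Fin (d + 1)) (Fin m) ℝ) (q : Fin m → ℤ) : ℝ :=
  open Classical in if q = 0 then 1 else distIntVec (ev A q)

theorem sum_gq_le {A : Matrix (Fin (d + 1)) (Fin m) ℝ} {β c : ℝ} (h : Hyp A β c) :
    ∃ K : ℝ, 0 < K ∧ ∀ t : ℕ, ∑ q ∈ box m (2 ^ t), 1 / gq A q ≤ K * β ^ t := by
  classical
  obtain ⟨K, hK, hsum⟩ := sum_inv_le h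
  have hβ : 1 < β := lt_of_le_of_lt (one_le_pow₀ one_le_two) h.lo
  refine ⟨K + 1, by positivity, fun t => ?_⟩
  have h0 : (0 : Fin m → ℤ) ∈ box m (2 ^ t) := by
    rw [mem_box]; intro i; simp
  rw [← Finset.add_sum_erase _ _ h0]
  have h1 : 1 / gq A (0 : Fin m → ℤ) = 1 := by simp [gq]
  have h2 : ∑ q ∈ (box m (2 ^ t)).erase 0, 1 / gq A q
      = ∑ q ∈ (box m (2 ^ t)).filter (fun q => q ≠ 0), 1 / distIntVec (ev A q) := by
    rw [show (box m (2 ^ t)).filter (fun q => q ≠ 0) = (box m (2 ^ t)).erase 0 by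
      ext q; simp [and_comm]]
    apply Finset.sum_congr rfl
    intro q hq
    rw [gq, if_neg (Finset.ne_of_mem_erase hq)]
  rw [h1, h2]
  have h3 : (1 : ℝ) ≤ β ^ t := one_le_pow₀ hβ.le
  have := hsum t
  nlinarith

theorem gq_pos {A : Matrix (Fin (d + 1)) (Fin m) ℝ} {β c : ℝ} (h : Hyp A β c) {t : ℕ}
    {q : Fin m → ℤ} (hq : ∀ i, |q i| ≤ 2 ^ t) : c / β ^ t ≤ gq A q := by
  unfold gq
  split_ifs with h0
  · have hβ : 1 < β := lt_of_le_of_lt (one_le_pow₀ one_le_two) h.lo
    have h3 : (1 : ℝ) ≤ β ^ t := one_le_pow₀ hβ.le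
    have := h.cle
    have := h.cpos
    rw [div_le_one (by positivity)]
    linarith
  · exact h.bd t q h0 hq

/-- lower bound for the slope of a form which is small somewhere -/
theorem norm_bvec_ge {A : Matrix (Fin (d + 1)) (Fin m) ℝ}
    {q' : Fin d → ℤ} {q : Fin m → ℤ} (hne : ¬ (q' = 0 ∧ q = 0)) {R δ : ℝ} (hR : 0 ≤ R)
    {x : Fin d → ℝ} (hx : ‖x‖ ≤ R) {p : ℤ}
    (hp : |p + aff (acoef A q) (bvec A q' q) x| < δ) (hδ : δ ≤ gq A q / 2) :
    gq A q / (2 * (d * R + 1)) ≤ ‖bvec A q' q‖ := by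
  have hpos : (0 : ℝ) < 2 * (d * R + 1) := by positivity
  rw [div_le_iff₀ hpos]
  by_cases hq : q = 0
  · have hq' : q' ≠ 0 := fun h => hne ⟨h, hq⟩
    obtain ⟨i, hi⟩ := Function.ne_iff.1 hq'
    have h1 : (1 : ℝ) ≤ ‖bvec A q' q‖ := by
      have h2 := norm_le_pi_norm (bvec A q' q) i
      have h3 : bvec A q' q i = q' i := by
        simp [bvec, hq, ev_zero]
      rw [h3, Real.norm_eq_abs] at h2
      refine le_trans ?_ h2
      rw [← Int.cast_abs]
      exact_mod_cast Int.one_le_abs hi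
    have h4 : gq A q = 1 := by simp [gq, hq]
    rw [h4]
    have : (0 : ℝ) ≤ d * R := by positivity
    nlinarith
  · have hg : gq A q = distIntVec (ev A q) := by simp [gq, hq]
    have hb : ∀ i, |bvec A q' q i| ≤ ‖bvec A q' q‖ := fun i => by
      simpa using norm_le_pi_norm (bvec A q' q) i
    have hsum : |aff (acoef A q) (bvec A q' q) x - acoef A q| ≤ d * R * ‖bvec A q' q‖ := by
      have := aff_sub_le (acoef A q) (bvec A q' q) x 0
      have h0 : aff (acoef A q) (bvec A q' q) 0 = acoef A q := by simp [aff]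
      rw [h0, dist_zero_right] at this
      refine this.trans ?_
      calc d * ‖bvec A q' q‖ * ‖x‖ ≤ d * ‖bvec A q' q‖ * R := by gcongr
        _ = _ := by ring
    have hδ0 : 0 ≤ δ := (abs_nonneg _).trans hp.le
    have key : distIntVec (ev A q) ≤ (d * R + 1) * ‖bvec A q' q‖ + δ := by
      apply distIntVec_le (Fin.cons (-p) (fun i => - q' i)) (by positivity)
      intro i
      refine Fin.cases ?_ (fun j => ?_) i
      · simp only [Fin.cons_zero]
        push_cast
        have e1 : ev A q 0 - -(p : ℝ) = (p + aff (acoef A q) (bvec A q' q) x)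
          - (aff (acoef A q) (bvec A q' q) x - acoef A q) := by
          unfold acoef; ring
        rw [e1]
        have e2 := abs_sub (p + aff (acoef A q) (bvec A q' q) x)
          (aff (acoef A q) (bvec A q' q) x - acoef A q)
        have e3 := norm_nonneg (bvec A q' q)
        nlinarith
      · simp only [Fin.cons_succ]
        push_cast
        have e1 : ev A q j.succ - -(q' j : ℝ) = bvec A q' q j := by unfold bvec; ring
        rw [e1]
        have e2 := hb j
        have e3 : 0 ≤ d * R * ‖bvec A q' q‖ := by positivity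
        nlinarith
    rw [hg] at hδ ⊢
    linarith

/-- points of a ball at which some form of small slope takes a small value -/
def Bad (A : Matrix (Fin (d + 1)) (Fin m) ℝ) (x0 : Fin d → ℝ) (ρ : ℝ) (t : ℕ) (lam δ : ℝ) :
    Set (Fin d → ℝ) :=
  {x | x ∈ closedBall x0 ρ ∧ ∃ (q' : Fin d → ℤ) (q : Fin m → ℤ) (p : ℤ), ¬ (q' = 0 ∧ q = 0) ∧
    (∀ j, |q j| ≤ 2 ^ t) ∧ ‖bvec A q' q‖ ≤ lam ∧
    |p + aff (acoef A q) (bvec A q' q) x| < δ}

/-- integer vectors `q'` for which the slope is at most `lam` -/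
noncomputable def slopeBox (A : Matrix (Fin (d + 1)) (Fin m) ℝ) (q : Fin m → ℤ) (lam : ℝ) :
    Finset (Fin d → ℤ) :=
  Fintype.piFinset fun i => Finset.Icc ⌈-(ev A q i.succ) - lam⌉ ⌊-(ev A q i.succ) + lam⌋

theorem mem_slopeBox {A : Matrix (Fin (d + 1)) (Fin m) ℝ} {q : Fin m → ℤ} {lam : ℝ}
    (hl : 0 ≤ lam) {q' : Fin d → ℤ} : q' ∈ slopeBox A q lam ↔ ‖bvec A q' q‖ ≤ lam := by
  rw [pi_norm_le_iff_of_nonneg hl]
  simp only [slopeBox, Fintype.mem_piFinset, Finset.mem_Icc, Int.ceil_le, Int.le_floor,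
    Real.norm_eq_abs, abs_le, bvec]
  constructor
  · intro h i
    have := h i
    constructor <;> linarith [this.1, this.2]
  · intro h i
    have := h i
    constructor <;> linarith [this.1, this.2]

theorem card_slopeBox_le (A : Matrix (Fin (d + 1)) (Fin m) ℝ) (q : Fin m → ℤ) {lam : ℝ}
    (hl : 0 ≤ lam) : ((slopeBox A q lam).card : ℝ) ≤ (2 * lam + 1) ^ d := by
  simp only [slopeBox, Fintype.card_piFinset, Int.card_Icc]
  push_cast
  calc ∏ i : Fin d, ((⌊-(ev A q i.succ) + lam⌋ + 1 - ⌈-(ev A q i.succ) - lam⌉).toNat : ℝ)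
      ≤ ∏ _i : Fin d, (2 * lam + 1) := by
        apply Finset.prod_le_prod
        · intro i _; positivity
        · intro i _
          have h1 : ((⌊-(ev A q i.succ) + lam⌋ + 1 - ⌈-(ev A q i.succ) - lam⌉).toNat : ℝ)
              = ((max (⌊-(ev A q i.succ) + lam⌋ + 1 - ⌈-(ev A q i.succ) - lam⌉) 0 : ℤ) : ℝ) := by
            rw [← Int.toNat_eq_max]
            rfl
          rw [h1]
          push_cast
          apply max_le
          · have := Int.floor_le (-(ev A q i.succ) + lam)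
            have := Int.le_ceil (-(ev A q i.succ) - lam)
            linarith
          · linarith
    _ = (2 * lam + 1) ^ d := by simp

/-- the constant in the union bound -/
noncomputable def C1 (d m : ℕ) : ℝ := (2 * d + 2) * 3 ^ (d + m) + 1

theorem volume_Bad_le (hd : 0 < d) {A : Matrix (Fin (d + 1)) (Fin m) ℝ} {β c : ℝ}
    (h : Hyp A β c) (x0 : Fin d → ℝ) {ρ κ : ℝ} (hρ : 0 < ρ) (hκ : 0 < κ) :
    ∃ t0 : ℕ, ∀ t, t0 ≤ t → ∀ δ : ℝ, 0 ≤ δ → δ ≤ 1 / 2 ^ (t * (d + m)) →
      volume (Bad A x0 ρ t (κ * 2 ^ t) δ)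
        ≤ ENNReal.ofReal (C1 d m * κ ^ d * (2 * ρ) ^ d * (2 ^ (t * (d + m)) * δ)) := by
  classical
  obtain ⟨K, hK, hsum⟩ := sum_gq_le h
  have hβ : 1 < β := lt_of_le_of_lt (one_le_pow₀ one_le_two) h.lo
  have hc := h.cpos
  set R := ‖x0‖ + ρ with hR
  have hR0 : 0 ≤ R := by positivity
  set K1 := 2 * (d * R + 1) with hK1
  have hK1pos : 0 < K1 := by positivity
  set K2 := 2 * K1 / ρ with hK2
  have hK2pos : 0 < K2 := by positivity
  set K3 := K2 * (2 / ρ + 1) ^ d * K with hK3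
  have hK3pos : 0 < K3 := by positivity
  -- the ratio
  set θ := β / 2 ^ (d + m) with hθ
  have hθ0 : 0 < θ := by positivity
  have hθ1 : θ < 1 := by rw [hθ, div_lt_one (by positivity)]; exact h.hi
  have hlim := tendsto_pow_atTop_nhds_zero_of_lt_one hθ0.le hθ1
  have e1 : ∀ᶠ t : ℕ in Filter.atTop, θ ^ t < c / 2 :=
    hlim.eventually_lt_const (by positivity)
  have e2 : ∀ᶠ t : ℕ in Filter.atTop, θ ^ t < κ ^ d / K3 :=
    hlim.eventually_lt_const (by positivity)
  have e3 : ∀ᶠ t : ℕ in Filter.atTop, 1 / κ ≤ (2 : ℝ) ^ t :=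
    (tendsto_pow_atTop_atTop_of_one_lt (one_lt_two)).eventually_ge_atTop _
  have e4 : ∀ᶠ t : ℕ in Filter.atTop, 1 ≤ t := Filter.eventually_ge_atTop 1
  obtain ⟨t0, ht0⟩ := Filter.eventually_atTop.1 (e1.and (e2.and (e3.and e4)))
  refine ⟨t0, fun t ht δ hδ0 hδ => ?_⟩
  obtain ⟨f1, f2, f3, f4⟩ := ht0 t ht
  have hpowt : β ^ t = θ ^ t * 2 ^ (t * (d + m)) := by
    rw [hθ, div_pow, mul_comm t, pow_mul]; field_simp
  have hδhalf : δ ≤ 1 / 2 := by
    refine hδ.trans ?_
    apply one_div_le_one_div_of_le (by norm_num)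
    calc (2 : ℝ) = 2 ^ 1 := (pow_one _).symm
      _ ≤ 2 ^ (t * (d + m)) := by
        apply pow_le_pow_right₀ one_le_two
        have : 1 ≤ d + m := by omega
        nlinarith
  have hδg : ∀ q : Fin m → ℤ, (∀ i, |q i| ≤ 2 ^ t) → δ ≤ gq A q / 2 := by
    intro q hq
    have h1 := gq_pos h hq
    have h2 : δ ≤ c / β ^ t / 2 := by
      refine hδ.trans ?_
      rw [hpowt, div_div, div_le_div_iff₀ (by positivity) (by positivity)]
      have : (0 : ℝ) < 2 ^ (t * (d + m)) := by positivity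
      nlinarith
    linarith
  have hgpos : ∀ q : Fin m → ℤ, (∀ i, |q i| ≤ 2 ^ t) → 0 < gq A q := by
    intro q hq
    exact lt_of_lt_of_le (by positivity) (gq_pos h hq)
  set lam := κ * 2 ^ t with hlam
  have hlam1 : 1 ≤ lam := by
    rw [div_le_iff₀ hκ] at f3; linarith
  have hlam0 : 0 ≤ lam := by linarith
  -- single sets
  set S : (Fin m → ℤ) → (Fin d → ℤ) → Set (Fin d → ℝ) := fun q q' =>
    {x | x ∈ closedBall x0 ρ ∧ ¬ (q' = 0 ∧ q = 0) ∧
      ∃ p : ℤ, |p + aff (acoef A q) (bvec A q' q) x| < δ} with hS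
  have hcover : Bad A x0 ρ t lam δ ⊆ ⋃ q ∈ box m (2 ^ t), ⋃ q' ∈ slopeBox A q lam, S q q' := by
    rintro x ⟨hx, q', q, p, h1, h2, h3, h4⟩
    simp only [mem_iUnion]
    exact ⟨q, mem_box.2 (by simpa using h2), q', (mem_slopeBox hlam0).2 h3, hx, h1, p, h4⟩
  set T : (Fin m → ℤ) → (Fin d → ℤ) → ℝ := fun q q' =>
    (2 * ρ) ^ d * δ * (2 * d + 2 + (if ‖bvec A q' q‖ ≤ 1 / ρ then K2 / gq A q else 0)) with hT
  have hTnn : ∀ q ∈ box m (2 ^ t), ∀ q', 0 ≤ T q q' := by
    intro q hq q'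
    have := hgpos q (by simpa using mem_box.1 hq)
    simp only [hT]
    split_ifs <;> positivity
  have hsingle : ∀ q ∈ box m (2 ^ t), ∀ q' ∈ slopeBox A q lam,
      volume (S q q') ≤ ENNReal.ofReal (T q q') := by
    intro q hq q' _
    have hqb : ∀ i, |q i| ≤ 2 ^ t := by simpa using mem_box.1 hq
    have hg := hgpos q hqb
    by_cases hemp : (S q q').Nonempty
    · obtain ⟨x, hx, hne, p, hp⟩ := hemp
      have hxR : ‖x‖ ≤ R := by
        have h1 := mem_closedBall.1 hx
        have h2 : ‖x‖ ≤ ‖x0‖ + ‖x - x0‖ := by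
          calc ‖x‖ = ‖x0 + (x - x0)‖ := by congr 1; abel
            _ ≤ _ := norm_add_le _ _
        rw [dist_eq_norm] at h1
        linarith
      have hbge := norm_bvec_ge hne hR0 hxR hp (hδg q hqb)
      have hbpos : 0 < ‖bvec A q' q‖ := lt_of_lt_of_le (by positivity) hbge
      have h1 : volume (S q q') ≤ ENNReal.ofReal ((2 * ρ) ^ d * δ
          * (2 * d + 2 / (ρ * ‖bvec A q' q‖))) := by
        refine le_trans (measure_mono ?_)
          (volume_near_int_le hd (acoef A q) (bvec A q' q) x0 hbpos hρ hδ0 hδhalf)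
        rintro y ⟨hy, _, hp⟩
        exact ⟨hy, hp⟩
      refine h1.trans (ENNReal.ofReal_le_ofReal ?_)
      simp only [hT]
      have hnn : 0 ≤ (2 * ρ) ^ d * δ := by positivity
      apply mul_le_mul_of_nonneg_left _ hnn
      split_ifs with hb
      · have h2 : 2 / (ρ * ‖bvec A q' q‖) ≤ K2 / gq A q := by
          rw [hK2, div_div, div_le_div_iff₀ (by positivity) (by positivity)]
          rw [div_le_iff₀ hK1pos] at hbge
          nlinarith
        linarith
      · push Not at hb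
        have h2 : 2 / (ρ * ‖bvec A q' q‖) ≤ 2 := by
          rw [div_le_iff₀ (by positivity)]
          rw [div_lt_iff₀ hρ] at hb
          nlinarith
        linarith
    · rw [not_nonempty_iff_eq_empty.1 hemp, measure_empty]
      exact zero_le
  have hstep : volume (Bad A x0 ρ t lam δ)
      ≤ ∑ q ∈ box m (2 ^ t), ∑ q' ∈ slopeBox A q lam, ENNReal.ofReal (T q q') := by
    refine (measure_mono hcover).trans ((measure_biUnion_finset_le _ _).trans ?_)
    apply Finset.sum_le_sum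
    intro q hq
    refine (measure_biUnion_finset_le _ _).trans ?_
    exact Finset.sum_le_sum fun q' hq' => hsingle q hq q' hq'
  refine hstep.trans ?_
  have hofReal : ∑ q ∈ box m (2 ^ t), ∑ q' ∈ slopeBox A q lam, ENNReal.ofReal (T q q')
      = ENNReal.ofReal (∑ q ∈ box m (2 ^ t), ∑ q' ∈ slopeBox A q lam, T q q') := by
    rw [ENNReal.ofReal_sum_of_nonneg fun q hq => Finset.sum_nonneg fun q' _ => hTnn q hq q']
    apply Finset.sum_congr rfl
    intro q hq
    rw [ENNReal.ofReal_sum_of_nonneg fun q' _ => hTnn q hq q']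
  rw [hofReal]
  apply ENNReal.ofReal_le_ofReal
  have hinner : ∀ q ∈ box m (2 ^ t), ∑ q' ∈ slopeBox A q lam, T q q'
      ≤ (2 * ρ) ^ d * δ * ((2 * d + 2) * (3 * lam) ^ d
        + K2 * (2 / ρ + 1) ^ d * (1 / gq A q)) := by
    intro q hq
    have hg := hgpos q (by simpa using mem_box.1 hq)
    simp only [hT]
    rw [← Finset.mul_sum, Finset.sum_add_distrib]
    apply mul_le_mul_of_nonneg_left _ (by positivity)
    apply add_le_add
    · rw [Finset.sum_const, nsmul_eq_mul, mul_comm]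
      apply mul_le_mul_of_nonneg_left _ (by positivity)
      refine (card_slopeBox_le A q hlam0).trans ?_
      apply pow_le_pow_left₀ (by positivity)
      linarith
    · rw [← Finset.sum_filter, Finset.sum_const, nsmul_eq_mul]
      have hcard : (((slopeBox A q lam).filter (fun q' => ‖bvec A q' q‖ ≤ 1 / ρ)).card : ℝ)
          ≤ (2 / ρ + 1) ^ d := by
        have h1 : ((slopeBox A q lam).filter (fun q' => ‖bvec A q' q‖ ≤ 1 / ρ))
            ⊆ slopeBox A q (1 / ρ) := by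
          intro q' hq'
          exact (mem_slopeBox (by positivity)).2 (Finset.mem_filter.1 hq').2
        have h2 := card_slopeBox_le A q (lam := 1 / ρ) (by positivity)
        have h3 : (((slopeBox A q lam).filter (fun q' => ‖bvec A q' q‖ ≤ 1 / ρ)).card : ℝ)
          ≤ ((slopeBox A q (1 / ρ)).card : ℝ) := by exact_mod_cast Finset.card_le_card h1
        refine h3.trans (h2.trans (le_of_eq ?_))
        congr 2; ring
      calc _ ≤ (2 / ρ + 1) ^ d * (K2 / gq A q) := by gcongr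
        _ = _ := by ring
  refine (Finset.sum_le_sum hinner).trans ?_
  rw [← Finset.mul_sum, Finset.sum_add_distrib, Finset.sum_const, nsmul_eq_mul, ← Finset.mul_sum]
  have hboxc : ((box m (2 ^ t)).card : ℝ) ≤ (3 * 2 ^ t) ^ m := by
    exact_mod_cast card_box_le (m := m) (N := 2 ^ t) Nat.one_le_two_pow
  have g1 : ((box m (2 ^ t)).card : ℝ) * ((2 * d + 2) * (3 * lam) ^ d)
      ≤ (2 * d + 2) * 3 ^ (d + m) * κ ^ d * 2 ^ (t * (d + m)) := by
    calc ((box m (2 ^ t)).card : ℝ) * ((2 * d + 2) * (3 * lam) ^ d)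
        ≤ (3 * 2 ^ t) ^ m * ((2 * d + 2) * (3 * lam) ^ d) := by gcongr
      _ = (2 * d + 2) * 3 ^ (d + m) * κ ^ d * 2 ^ (t * (d + m)) := by
        rw [hlam, mul_pow, mul_pow, mul_pow, pow_add, mul_add, pow_add, pow_mul, pow_mul]
        ring
  have g2 : K2 * (2 / ρ + 1) ^ d * ∑ q ∈ box m (2 ^ t), 1 / gq A q
      ≤ κ ^ d * 2 ^ (t * (d + m)) := by
    calc K2 * (2 / ρ + 1) ^ d * ∑ q ∈ box m (2 ^ t), 1 / gq A q
        ≤ K2 * (2 / ρ + 1) ^ d * (K * β ^ t) := by
          have := hsum t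
          gcongr
      _ = K3 * θ ^ t * 2 ^ (t * (d + m)) := by rw [hpowt, hK3]; ring
      _ ≤ K3 * (κ ^ d / K3) * 2 ^ (t * (d + m)) := by gcongr
      _ = κ ^ d * 2 ^ (t * (d + m)) := by field_simp
  calc (2 * ρ) ^ d * δ * (((box m (2 ^ t)).card : ℝ) * ((2 * d + 2) * (3 * lam) ^ d)
        + K2 * (2 / ρ + 1) ^ d * ∑ q ∈ box m (2 ^ t), 1 / gq A q)
      ≤ (2 * ρ) ^ d * δ * ((2 * d + 2) * 3 ^ (d + m) * κ ^ d * 2 ^ (t * (d + m))
        + κ ^ d * 2 ^ (t * (d + m))) := by gcongr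
    _ = C1 d m * κ ^ d * (2 * ρ) ^ d * (2 ^ (t * (d + m)) * δ) := by
        unfold C1; ring

end Pool.Agent.H639R3.G
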