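import Mathlib

/-!
Volume of slabs cut by a box, and a quantitative form of the divergence
Borel-Cantelli lemma.
-/

open MeasureTheory Set Metric

namespace Pool.Agent.H639R3.G

variable {d : ℕ}

/-- the affine form `a + b·x` -/
def aff (a : ℝ) (b x : Fin d → ℝ) : ℝ := a + ∑ i, b i * x i

/-- the part of a slab that lies above a box in the coordinates other than `i` -/
def slabBox (a : ℝ) (b : Fin d → ℝ) (i : Fin d) (c : Fin d → ℝ) (r δ : ℝ) : Set (Fin d → ℝ) :=
  {x | (∀ j, j ≠ i → |x j - c j| ≤ r) ∧ |aff a b x| < δ}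

theorem measurable_aff (a : ℝ) (b : Fin d → ℝ) : Measurable (aff a b) := by
  unfold aff
  fun_prop

theorem measurableSet_slabBox (a : ℝ) (b : Fin d → ℝ) (i : Fin d) (c : Fin d → ℝ) (r δ : ℝ) :
    MeasurableSet (slabBox a b i c r δ) := by
  unfold slabBox
  apply MeasurableSet.inter
  · have : {x : Fin d → ℝ | ∀ j, j ≠ i → |x j - c j| ≤ r}
      = ⋂ j, {x : Fin d → ℝ | j ≠ i → |x j - c j| ≤ r} := by
      ext x; simp
    show MeasurableSet {x : Fin d → ℝ | ∀ j, j ≠ i → |x j - c j| ≤ r}
    rw [this]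
    apply MeasurableSet.iInter
    intro j
    by_cases hj : j = i
    · have : {x : Fin d → ℝ | j ≠ i → |x j - c j| ≤ r} = univ := by
        ext x; simp [hj]
      rw [this]; exact MeasurableSet.univ
    · have : {x : Fin d → ℝ | j ≠ i → |x j - c j| ≤ r} = {x : Fin d → ℝ | |x j - c j| ≤ r} := by
        ext x; simp [hj]
      rw [this]
      exact measurableSet_le (by fun_prop) measurable_const
  · exact measurableSet_lt ((measurable_aff a b).abs) measurable_const

theorem volume_slabBox {a : ℝ} {b : Fin d → ℝ} {i : Fin d} {c : Fin d → ℝ} {r δ : ℝ}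
    (hb : b i ≠ 0) (hr : 0 ≤ r) :
    volume (slabBox a b i c r δ) = ENNReal.ofReal ((2 * r) ^ (d - 1) * (2 * δ) / |b i|) := by
  classical
  set M : Matrix (Fin d) (Fin d) ℝ := (1 : Matrix (Fin d) (Fin d) ℝ).updateRow i b with hM
  have hdet : M.det = b i := by
    rw [hM, ← Matrix.cramer_transpose_apply]
    simp
  have hLdet : LinearMap.det (Matrix.toLin' M) = b i := by
    rw [LinearMap.det_toLin', hdet]
  set s : Set (Fin d → ℝ) := Set.pi univ (fun j => if j = i then Ioo (-a - δ) (-a + δ)
    else Icc (c j - r) (c j + r)) with hs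
  have hpre : slabBox a b i c r δ = (Matrix.toLin' M) ⁻¹' s := by
    ext x
    have hMi : (Matrix.toLin' M x) i = ∑ j, b j * x j := by
      simp [hM, Matrix.mulVec, dotProduct]
    have hMj : ∀ j, j ≠ i → (Matrix.toLin' M x) j = x j := by
      intro j hj
      simp only [hM, Matrix.toLin'_apply, Matrix.mulVec, dotProduct,
        Matrix.updateRow_ne hj]
      rw [Finset.sum_eq_single j]
      · simp
      · intro k _ hk
        rw [Matrix.one_apply_ne (Ne.symm hk), zero_mul]
      · intro h; exact absurd (Finset.mem_univ j) h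
    simp only [slabBox, mem_ofPred_eq, mem_preimage, hs, Set.mem_pi, mem_univ, true_implies, aff]
    constructor
    · rintro ⟨h1, h2⟩ j
      by_cases hj : j = i
      · subst hj
        rw [if_pos rfl, hMi]
        rw [abs_lt] at h2
        exact ⟨by linarith [h2.1], by linarith [h2.2]⟩
      · rw [if_neg hj, hMj j hj]
        have := abs_le.1 (h1 j hj)
        exact ⟨by linarith [this.1], by linarith [this.2]⟩
    · intro h
      refine ⟨fun j hj => ?_, ?_⟩
      · have := h j
        rw [if_neg hj, hMj j hj] at this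
        exact abs_le.2 ⟨by linarith [this.1], by linarith [this.2]⟩
      · have := h i
        rw [if_pos rfl, hMi] at this
        exact abs_lt.2 ⟨by linarith [this.1], by linarith [this.2]⟩
  rw [hpre, Measure.addHaar_preimage_linearMap _ (by rw [hLdet]; exact hb), hLdet, hs, volume_pi_pi]
  have hprod : ∏ j, volume (if j = i then Ioo (-a - δ) (-a + δ) else Icc (c j - r) (c j + r))
      = ENNReal.ofReal ((2 * r) ^ (d - 1) * (2 * δ)) := by
    rw [← Finset.mul_prod_erase _ _ (Finset.mem_univ i), if_pos rfl]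
    have h1 : ∀ j ∈ Finset.univ.erase i, volume (if j = i then Ioo (-a - δ) (-a + δ)
        else Icc (c j - r) (c j + r)) = ENNReal.ofReal (2 * r) := by
      intro j hj
      rw [if_neg (Finset.ne_of_mem_erase hj), Real.volume_Icc]
      congr 1; ring
    rw [Finset.prod_congr rfl h1, Finset.prod_const, Finset.card_erase_of_mem (Finset.mem_univ i),
      Finset.card_univ, Fintype.card_fin, Real.volume_Ioo, mul_comm,
      ← ENNReal.ofReal_pow (by positivity), ← ENNReal.ofReal_mul (by positivity)]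
    congr 2; ring
  rw [hprod, ← ENNReal.ofReal_mul (by positivity)]
  congr 1
  rw [abs_inv]
  field_simp


theorem exists_max_coord (hd : 0 < d) (b : Fin d → ℝ) : ∃ i, |b i| = ‖b‖ := by
  have : Nonempty (Fin d) := ⟨⟨0, hd⟩⟩
  obtain ⟨i, -, hi⟩ := Finset.exists_max_image Finset.univ (fun i => |b i|)
    Finset.univ_nonempty
  refine ⟨i, le_antisymm (by simpa using norm_le_pi_norm b i) ?_⟩
  rw [pi_norm_le_iff_of_nonneg (abs_nonneg _)]
  intro j
  simpa using hi j (Finset.mem_univ j)

theorem aff_sub_le (a : ℝ) (b x y : Fin d → ℝ) :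
    |aff a b x - aff a b y| ≤ d * ‖b‖ * dist x y := by
  unfold aff
  have h1 : (a + ∑ i, b i * x i) - (a + ∑ i, b i * y i) = ∑ i, b i * (x i - y i) := by
    rw [add_sub_add_left_eq_sub, ← Finset.sum_sub_distrib]
    exact Finset.sum_congr rfl fun i _ => by ring
  rw [h1]
  calc |∑ i, b i * (x i - y i)| ≤ ∑ i, |b i * (x i - y i)| := Finset.abs_sum_le_sum_abs _ _
    _ ≤ ∑ _i : Fin d, ‖b‖ * dist x y := by
        apply Finset.sum_le_sum
        intro i _
        rw [abs_mul]
        apply mul_le_mul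
        · simpa using norm_le_pi_norm b i
        · simpa [Real.dist_eq] using dist_le_pi_dist x y i
        · exact abs_nonneg _
        · exact norm_nonneg _
    _ = d * ‖b‖ * dist x y := by
        rw [Finset.sum_const, Finset.card_univ, Fintype.card_fin, nsmul_eq_mul]; ring

theorem slabBox_subset_closedBall (hd : 0 < d) {a : ℝ} {b : Fin d → ℝ} {i : Fin d}
    {c : Fin d → ℝ} {r δ θ : ℝ}
    (hbi : |b i| = ‖b‖) (hb : 0 < ‖b‖) (hr : 0 ≤ r) (hδ : 0 ≤ δ) (hθ : |aff a b c| ≤ θ) :
    slabBox a b i c r δ ⊆ closedBall c (d * r + (δ + θ) / ‖b‖) := by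
  have hd1 : (1 : ℝ) ≤ d := by exact_mod_cast hd
  have hθ0 : 0 ≤ θ := le_trans (abs_nonneg _) hθ
  rintro x ⟨h1, h2⟩
  rw [mem_closedBall, dist_pi_le_iff (by positivity)]
  intro j
  rw [Real.dist_eq]
  by_cases hj : j = i
  · subst hj
    have e1 : b j * (x j - c j) = (aff a b x - aff a b c)
        - ∑ k ∈ Finset.univ.erase j, b k * (x k - c k) := by
      have : aff a b x - aff a b c = ∑ k, b k * (x k - c k) := by
        unfold aff
        rw [add_sub_add_left_eq_sub, ← Finset.sum_sub_distrib]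
        exact Finset.sum_congr rfl fun i _ => by ring
      rw [this, ← Finset.add_sum_erase _ _ (Finset.mem_univ j)]
      ring
    have e2 : |∑ k ∈ Finset.univ.erase j, b k * (x k - c k)| ≤ (d - 1) * (‖b‖ * r) := by
      calc |∑ k ∈ Finset.univ.erase j, b k * (x k - c k)|
          ≤ ∑ k ∈ Finset.univ.erase j, |b k * (x k - c k)| := Finset.abs_sum_le_sum_abs _ _
        _ ≤ ∑ _k ∈ Finset.univ.erase j, ‖b‖ * r := by
            apply Finset.sum_le_sum
            intro k hk
            rw [abs_mul]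
            apply mul_le_mul
            · simpa using norm_le_pi_norm b k
            · exact h1 k (Finset.ne_of_mem_erase hk)
            · exact abs_nonneg _
            · exact norm_nonneg _
        _ = (d - 1) * (‖b‖ * r) := by
            rw [Finset.sum_const, Finset.card_erase_of_mem (Finset.mem_univ j), Finset.card_univ,
              Fintype.card_fin, nsmul_eq_mul, Nat.cast_sub hd]
            simp
    have e3 : |b j| * |x j - c j| ≤ (δ + θ) + (d - 1) * (‖b‖ * r) := by
      rw [← abs_mul, e1]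
      calc |(aff a b x - aff a b c) - ∑ k ∈ Finset.univ.erase j, b k * (x k - c k)|
          ≤ |aff a b x - aff a b c| + |∑ k ∈ Finset.univ.erase j, b k * (x k - c k)| :=
            abs_sub _ _
        _ ≤ (|aff a b x| + |aff a b c|) + |∑ k ∈ Finset.univ.erase j, b k * (x k - c k)| := by
            gcongr; exact abs_sub _ _
        _ ≤ (δ + θ) + (d - 1) * (‖b‖ * r) := by
            gcongr
    rw [hbi] at e3
    have e4 : |x j - c j| ≤ ((δ + θ) + (d - 1) * (‖b‖ * r)) / ‖b‖ := by
      rw [le_div_iff₀ hb]; linarith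
    have e5 : ((δ + θ) + (d - 1) * (‖b‖ * r)) / ‖b‖ = (δ + θ) / ‖b‖ + (d - 1) * r := by
      field_simp
    rw [e5] at e4
    nlinarith
  · have := h1 j hj
    have h3 : 0 ≤ (δ + θ) / ‖b‖ := by positivity
    nlinarith

theorem slabBox_thicken {a : ℝ} {b : Fin d → ℝ} {i : Fin d}
    {c : Fin d → ℝ} {r δ ε : ℝ} {x y : Fin d → ℝ} (hx : x ∈ slabBox a b i c r δ)
    (hxy : dist y x ≤ ε) : y ∈ slabBox a b i c (r + ε) (δ + d * ‖b‖ * ε) := by
  obtain ⟨h1, h2⟩ := hx
  refine ⟨fun j hj => ?_, ?_⟩
  · have h3 : |y j - x j| ≤ ε := by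
      rw [← Real.dist_eq]
      exact (dist_le_pi_dist y x j).trans hxy
    have := h1 j hj
    calc |y j - c j| = |(x j - c j) + (y j - x j)| := by ring_nf
      _ ≤ |x j - c j| + |y j - x j| := abs_add_le _ _
      _ ≤ r + ε := by linarith
  · have h3 := aff_sub_le a b y x
    calc |aff a b y| = |aff a b x + (aff a b y - aff a b x)| := by ring_nf
      _ ≤ |aff a b x| + |aff a b y - aff a b x| := abs_add_le _ _
      _ < δ + d * ‖b‖ * ε := by
        have h4 : d * ‖b‖ * dist y x ≤ d * ‖b‖ * ε := by gcongr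
        linarith

/-- measure of the set of points of a ball whose affine form is close to an integer -/
theorem volume_near_int_le (hd : 0 < d) (a : ℝ) (b x0 : Fin d → ℝ) {ρ δ : ℝ} (hb : 0 < ‖b‖)
    (hρ : 0 < ρ) (hδ : 0 ≤ δ) (hδ2 : δ ≤ 1 / 2) :
    volume {x | x ∈ closedBall x0 ρ ∧ ∃ p : ℤ, |p + aff a b x| < δ}
      ≤ ENNReal.ofReal ((2 * ρ) ^ d * δ * (2 * d + 2 / (ρ * ‖b‖))) := by
  obtain ⟨i, hi⟩ := exists_max_coord hd b
  have hbi : b i ≠ 0 := by
    intro h; rw [h, abs_zero] at hi; linarith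
  set u := aff a b x0 with hu
  set h := d * ‖b‖ * ρ + δ with hh
  have hh0 : 0 ≤ h := by positivity
  have hsub : {x | x ∈ closedBall x0 ρ ∧ ∃ p : ℤ, |p + aff a b x| < δ}
      ⊆ ⋃ p ∈ Finset.Icc ⌈-u - h⌉ ⌊-u + h⌋, slabBox ((p : ℤ) + a) b i x0 ρ δ := by
    rintro x ⟨hx, p, hp⟩
    have h3 := aff_sub_le a b x x0
    have h4 : d * ‖b‖ * dist x x0 ≤ d * ‖b‖ * ρ := by
      have := mem_closedBall.1 hx
      gcongr
    have h5 := abs_lt.1 hp
    have h6 := abs_le.1 (h3.trans h4)
    simp only [mem_iUnion, Finset.mem_Icc, Int.ceil_le, Int.le_floor]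
    refine ⟨p, ⟨by linarith, by linarith⟩, fun j _ => ?_, ?_⟩
    · rw [← Real.dist_eq]
      exact (dist_le_pi_dist x x0 j).trans (mem_closedBall.1 hx)
    · have : aff (p + a) b x = p + aff a b x := by unfold aff; ring
      rw [this]; exact hp
  refine (measure_mono hsub).trans ((measure_biUnion_finset_le _ _).trans ?_)
  simp_rw [volume_slabBox hbi hρ.le]
  rw [Finset.sum_const, Int.card_Icc, nsmul_eq_mul, hi]
  rw [← ENNReal.ofReal_natCast, ← ENNReal.ofReal_mul (by positivity)]
  apply ENNReal.ofReal_le_ofReal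
  have hcard : ((⌊-u + h⌋ + 1 - ⌈-u - h⌉).toNat : ℝ) ≤ 2 * h + 1 := by
    have h1 : ((⌊-u + h⌋ + 1 - ⌈-u - h⌉).toNat : ℝ)
        = ((max (⌊-u + h⌋ + 1 - ⌈-u - h⌉) 0 : ℤ) : ℝ) := by
      rw [← Int.toNat_eq_max]
      rfl
    rw [h1]
    push_cast
    apply max_le
    · have := Int.floor_le (-u + h)
      have := Int.le_ceil (-u - h)
      linarith
    · linarith
  have hdd : (2 * ρ) ^ d = (2 * ρ) ^ (d - 1) * (2 * ρ) := by
    rw [← pow_succ]; congr 1; omega
  calc ((⌊-u + h⌋ + 1 - ⌈-u - h⌉).toNat : ℝ) * ((2 * ρ) ^ (d - 1) * (2 * δ) / ‖b‖)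
      ≤ (2 * h + 1) * ((2 * ρ) ^ (d - 1) * (2 * δ) / ‖b‖) := by gcongr
    _ ≤ (2 * (d * ‖b‖ * ρ) + 2) * ((2 * ρ) ^ (d - 1) * (2 * δ) / ‖b‖) := by
        apply mul_le_mul_of_nonneg_right
        · rw [hh]; linarith
        · positivity
    _ = (2 * ρ) ^ d * δ * (2 * d + 2 / (ρ * ‖b‖)) := by
        rw [hdd]; field_simp

/-- A quantitative divergence Borel-Cantelli lemma. -/
theorem measure_frequently_ge {X : Type*} [MeasurableSpace X] (μ : Measure X)
    (E : ℕ → Set X) (hE : ∀ t, MeasurableSet (E t)) (B : Set X) (hB : μ B ≠ ⊤)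
    (hEB : ∀ t, E t ⊆ B) (w : ℕ → ℝ) (hw : ∀ t, 0 ≤ w t) (hdiv : ¬ Summable w)
    (c C V : ℝ) (hc : 0 < c) (hC : 0 < C) (hV : 0 < V)
    (hlow : ∀ t, c * V * w t ≤ μ.real (E t)) (hup : ∀ t, μ.real (E t) ≤ C * V * w t)
    (hov : ∀ s t, s < t → μ.real (E s ∩ E t) ≤ C * V * (w s * w t + (1 / 2) ^ (t - s) * w s)) :
    c ^ 2 / (5 * C) * V ≤ μ.real {x | ∃ᶠ t in Filter.atTop, x ∈ E t} := by
  classical
  have hfin : ∀ S : Set X, S ⊆ B → μ S ≠ ⊤ := fun S hS =>
    ne_top_of_le_ne_top hB (measure_mono hS)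
  -- lower bound for the union from `N` on
  have key : ∀ N, c ^ 2 / (5 * C) * V ≤ μ.real (⋃ t, ⋃ (_ : N ≤ t), E t) := by
    intro N
    -- choose M with large sum
    obtain ⟨M, hM⟩ : ∃ M, 1 ≤ ∑ t ∈ Finset.Ico N M, w t := by
      by_contra hcon
      push Not at hcon
      apply hdiv
      rw [← summable_nat_add_iff N]
      apply summable_of_sum_range_le (c := 1) (fun t => hw _)
      intro n
      have := hcon (N + n)
      rw [Finset.sum_Ico_eq_sum_range] at this
      simp only [Nat.add_sub_cancel_left] at this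
      refine le_trans (le_of_eq ?_) this.le
      exact Finset.sum_congr rfl fun i _ => by rw [add_comm]
    set F := Finset.Ico N M with hF
    set S := ∑ t ∈ F, w t with hS
    have hSpos : 0 < S := by linarith
    set U : Set X := ⋃ t, ⋃ (_ : N ≤ t), E t with hU
    have hUB : U ⊆ B := by
      simp only [hU, iUnion_subset_iff]
      intro t _; exact hEB t
    have hUm : MeasurableSet U := by
      exact MeasurableSet.iUnion fun t => MeasurableSet.iUnion fun _ => hE t
    set m1 := ∑ t ∈ F, μ.real (E t) with hm1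
    set m2 := ∑ s ∈ F, ∑ t ∈ F, μ.real (E s ∩ E t) with hm2
    have hind : ∀ A : Set X, MeasurableSet A → A ⊆ B →
        Integrable (A.indicator (1 : X → ℝ)) μ := by
      intro A hA hAB
      rw [integrable_indicator_iff hA]
      exact integrableOn_const (hfin A hAB)
    have hlam : ∀ lam : ℝ, 2 * lam * m1 - lam ^ 2 * m2 ≤ μ.real U := by
      intro lam
      have e1 : m1 = ∫ x, ∑ t ∈ F, (E t).indicator (1 : X → ℝ) x ∂μ := by
        rw [integral_finsetSum _ fun t _ => hind _ (hE t) (hEB t)]
        exact Finset.sum_congr rfl fun t _ => (integral_indicator_one (hE t)).symm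
      have e2 : m2 = ∫ x, ∑ s ∈ F, ∑ t ∈ F, (E s ∩ E t).indicator (1 : X → ℝ) x ∂μ := by
        rw [integral_finsetSum _ fun s _ => integrable_finsetSum _ fun t _ =>
          hind _ ((hE s).inter (hE t)) (inter_subset_left.trans (hEB s))]
        apply Finset.sum_congr rfl
        intro s _
        rw [integral_finsetSum _ fun t _ =>
          hind _ ((hE s).inter (hE t)) (inter_subset_left.trans (hEB s))]
        exact Finset.sum_congr rfl fun t _ =>
          (integral_indicator_one ((hE s).inter (hE t))).symm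
      have i1 : Integrable (fun x => ∑ t ∈ F, (E t).indicator (1 : X → ℝ) x) μ :=
        integrable_finsetSum _ fun t _ => hind _ (hE t) (hEB t)
      have i2 : Integrable (fun x => ∑ s ∈ F, ∑ t ∈ F, (E s ∩ E t).indicator (1 : X → ℝ) x) μ :=
        integrable_finsetSum _ fun s _ => integrable_finsetSum _ fun t _ =>
          hind _ ((hE s).inter (hE t)) (inter_subset_left.trans (hEB s))
      rw [e1, e2, ← integral_const_mul, ← integral_const_mul, ← integral_sub
        (i1.const_mul _) (i2.const_mul _), ← integral_indicator_one hUm]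
      apply integral_mono ((i1.const_mul _).sub (i2.const_mul _)) (hind U hUm hUB)
      intro x
      have h2 : ∑ s ∈ F, ∑ t ∈ F, (E s ∩ E t).indicator (1 : X → ℝ) x
          = (∑ t ∈ F, (E t).indicator (1 : X → ℝ) x) ^ 2 := by
        rw [sq, Finset.sum_mul_sum]
        refine Finset.sum_congr rfl fun s _ => Finset.sum_congr rfl fun t _ => ?_
        rw [Set.inter_indicator_one]; rfl
      show 2 * lam * ∑ t ∈ F, (E t).indicator (1 : X → ℝ) x
        - lam ^ 2 * ∑ s ∈ F, ∑ t ∈ F, (E s ∩ E t).indicator (1 : X → ℝ) x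
        ≤ U.indicator (1 : X → ℝ) x
      rw [h2]
      set f := ∑ t ∈ F, (E t).indicator (1 : X → ℝ) x with hf
      by_cases hx : x ∈ U
      · rw [indicator_of_mem hx, Pi.one_apply]
        nlinarith [sq_nonneg (1 - lam * f)]
      · have : f = 0 := by
          rw [hf]
          apply Finset.sum_eq_zero
          intro t ht
          apply indicator_of_notMem
          intro hxt
          apply hx
          simp only [hU, mem_iUnion]
          exact ⟨t, (Finset.mem_Ico.1 ht).1, hxt⟩
        rw [this, indicator_of_notMem hx]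
        simp
    have hm1le : c * V * S ≤ m1 := by
      rw [hS, Finset.mul_sum]
      exact Finset.sum_le_sum fun t _ => hlow t
    have hgeo : ∀ s ∈ F, ∑ t ∈ F, (if s ≤ t then (1 / 2 : ℝ) ^ (t - s) else 0) ≤ 2 := by
      intro s hs
      rw [← Finset.sum_filter]
      have : F.filter (fun t => s ≤ t) = Finset.Ico s M := by
        ext t
        simp only [hF, Finset.mem_filter, Finset.mem_Ico] at hs ⊢
        omega
      rw [this, Finset.sum_Ico_eq_sum_range]
      simp only [Nat.add_sub_cancel_left]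
      have := Summable.sum_le_tsum (Finset.range (M - s)) (fun i _ => by positivity)
        (summable_geometric_two)
      rw [tsum_geometric_two] at this
      exact this
    have hm2le : m2 ≤ 5 * C * V * S ^ 2 := by
      have hpt : ∀ s t, μ.real (E s ∩ E t) ≤ C * V * (w s * w t)
          + C * V * (w s * (if s ≤ t then (1 / 2 : ℝ) ^ (t - s) else 0))
          + C * V * (w t * (if t ≤ s then (1 / 2 : ℝ) ^ (s - t) else 0)) := by
        intro s t
        have hs := hw s
        have ht := hw t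
        have hCV : 0 < C * V := by positivity
        rcases lt_trichotomy s t with h | h | h
        · have := hov s t h
          rw [if_pos h.le, if_neg (not_le.2 h)]
          nlinarith
        · subst h
          rw [inter_self, if_pos le_rfl, Nat.sub_self, pow_zero]
          have := hup s
          have h3 : 0 ≤ C * V * (w s * w s) := by positivity
          have h4 : 0 ≤ C * V * (w s * 1) := by positivity
          nlinarith
        · have := hov t s h
          rw [inter_comm, if_neg (not_le.2 h), if_pos h.le]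
          nlinarith
      have hsum : m2 ≤ ∑ s ∈ F, ∑ t ∈ F, (C * V * (w s * w t)
          + C * V * (w s * (if s ≤ t then (1 / 2 : ℝ) ^ (t - s) else 0))
          + C * V * (w t * (if t ≤ s then (1 / 2 : ℝ) ^ (s - t) else 0))) :=
        Finset.sum_le_sum fun s _ => Finset.sum_le_sum fun t _ => hpt s t
      have h1 : ∑ s ∈ F, ∑ t ∈ F, C * V * (w s * w t) = C * V * S ^ 2 := by
        rw [sq, hS, Finset.sum_mul_sum, Finset.mul_sum]
        exact Finset.sum_congr rfl fun s _ => by rw [Finset.mul_sum]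
      have h2 : ∑ s ∈ F, ∑ t ∈ F, C * V * (w s * (if s ≤ t then (1 / 2 : ℝ) ^ (t - s) else 0))
          ≤ C * V * (2 * S) := by
        rw [hS, Finset.mul_sum, Finset.mul_sum]
        apply Finset.sum_le_sum
        intro s hs
        rw [← Finset.mul_sum, ← Finset.mul_sum]
        have := hgeo s hs
        have hws := hw s
        have : w s * ∑ t ∈ F, (if s ≤ t then (1 / 2 : ℝ) ^ (t - s) else 0) ≤ 2 * w s := by
          nlinarith
        gcongr
      have h3 : ∑ s ∈ F, ∑ t ∈ F, C * V * (w t * (if t ≤ s then (1 / 2 : ℝ) ^ (s - t) else 0))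
          ≤ C * V * (2 * S) := by
        rw [Finset.sum_comm]; exact h2
      simp only [Finset.sum_add_distrib] at hsum
      rw [h1] at hsum
      have hSS : S ≤ S ^ 2 := by nlinarith
      have hCV : 0 < C * V := by positivity
      nlinarith
    have := hlam (c / (5 * C * S))
    have hl : 0 < c / (5 * C * S) := by positivity
    have h4 : 2 * (c / (5 * C * S)) * (c * V * S) - (c / (5 * C * S)) ^ 2 * (5 * C * V * S ^ 2)
        = c ^ 2 / (5 * C) * V := by
      field_simp
      ring
    have h5 : 2 * (c / (5 * C * S)) * (c * V * S) ≤ 2 * (c / (5 * C * S)) * m1 := by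
      gcongr
    have h6 : (c / (5 * C * S)) ^ 2 * m2 ≤ (c / (5 * C * S)) ^ 2 * (5 * C * V * S ^ 2) := by
      gcongr
    linarith
  -- pass to the limit
  have hset : {x | ∃ᶠ t in Filter.atTop, x ∈ E t} = ⋂ N, ⋃ t, ⋃ (_ : N ≤ t), E t := by
    ext x
    simp only [mem_ofPred_eq, Filter.frequently_atTop, mem_iInter, mem_iUnion, exists_prop]
  have hanti : Antitone fun N : ℕ => ⋃ t, ⋃ (_ : N ≤ t), E t := by
    intro N N' hNN x hx
    simp only [mem_iUnion, exists_prop] at hx ⊢
    obtain ⟨t, ht, hxt⟩ := hx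
    exact ⟨t, hNN.trans ht, hxt⟩
  have hlim := tendsto_measure_iInter_atTop (μ := μ)
    (s := fun N : ℕ => ⋃ t, ⋃ (_ : N ≤ t), E t)
    (fun N => (MeasurableSet.iUnion fun t => MeasurableSet.iUnion fun _ => hE t).nullMeasurableSet)
    hanti ⟨0, hfin _ (by
      simp only [iUnion_subset_iff]
      intro t _; exact hEB t)⟩
  rw [hset]
  have hfin2 : μ (⋂ N, ⋃ t, ⋃ (_ : N ≤ t), E t) ≠ ⊤ := by
    apply hfin
    refine (iInter_subset _ 0).trans ?_
    simp only [iUnion_subset_iff]
    intro t _; exact hEB t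
  have hge : ENNReal.ofReal (c ^ 2 / (5 * C) * V) ≤ μ (⋂ N, ⋃ t, ⋃ (_ : N ≤ t), E t) := by
    apply ge_of_tendsto' hlim
    intro N
    exact ENNReal.ofReal_le_of_le_toReal (key N)
  exact (ENNReal.ofReal_le_iff_le_toReal hfin2).1 hge

end Pool.Agent.H639R3.G
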